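import Mathlib

set_option autoImplicit false

/-!
# MP_e85204_al: counting matrices in `SL(2, p)` by their trace
-/

namespace Pool.Agent.AlmRam

open Finset Matrix

section count

variable (p : ℕ) [Fact p.Prime]

/-- the special linear group -/
abbrev SL2 : Type := Matrix.SpecialLinearGroup (Fin 2) (ZMod p)

variable {p}

theorem det_eq (X : SL2 p) : X.1 0 0 * X.1 1 1 - X.1 0 1 * X.1 1 0 = 1 := by
  have h := X.2
  rw [det_fin_two] at h
  exact h

/-- the trace -/
def tr (X : SL2 p) : ZMod p := X.1 0 0 + X.1 1 1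

theorem sl_ext (X Y : SL2 p) (h1 : X.1 0 0 = Y.1 0 0) (h2 : X.1 0 1 = Y.1 0 1)
    (h3 : X.1 1 0 = Y.1 1 0) (h4 : X.1 1 1 = Y.1 1 1) : X = Y := by
  apply Subtype.ext
  ext i j
  fin_cases i <;> fin_cases j
  · exact h1
  · exact h2
  · exact h3
  · exact h4

/-- a matrix with given entries -/
def mk2 (a b c d : ZMod p) (h : a * d - b * c = 1) : SL2 p :=
  ⟨!![a, b; c, d], by rw [det_fin_two]; simpa using h⟩

open Classical in
theorem card_trace (t : ZMod p) :
    (univ.filter (fun X : SL2 p => tr X = t)).card ≤ 2 * p ^ 2 := by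
  have h1 := card_le_mul_card_image (f := fun X : SL2 p => (X.1 0 1, X.1 1 0))
    (univ.filter (fun X : SL2 p => tr X = t)) 2 (by
      intro bc hbc
      rw [mem_image] at hbc
      obtain ⟨X, hX, hXbc⟩ := hbc
      have hXt := (mem_filter.1 hX).2
      have h2 : ((univ.filter (fun X : SL2 p => tr X = t)).filter
          (fun Y => (Y.1 0 1, Y.1 1 0) = bc)).card ≤
          ({X.1 0 0, t - X.1 0 0} : Finset (ZMod p)).card := by
        refine card_le_card_of_injOn (fun Y => Y.1 0 0) ?_ ?_
        · intro Y hY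
          have hY' := mem_filter.1 (mem_coe.1 hY)
          have hYt := (mem_filter.1 hY'.1).2
          have hb : Y.1 0 1 = X.1 0 1 := by
            have := congrArg Prod.fst (hY'.2.trans hXbc.symm)
            exact this
          have hc : Y.1 1 0 = X.1 1 0 := by
            have := congrArg Prod.snd (hY'.2.trans hXbc.symm)
            exact this
          have e1 := det_eq X
          have e2 := det_eq Y
          unfold tr at hXt hYt
          rw [hb, hc] at e2
          have e3 : X.1 1 1 = t - X.1 0 0 := by rw [← hXt]; ring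
          have e4 : Y.1 1 1 = t - Y.1 0 0 := by rw [← hYt]; ring
          rw [e3] at e1
          rw [e4] at e2
          have e5 : (Y.1 0 0 - X.1 0 0) * (Y.1 0 0 - (t - X.1 0 0)) = 0 := by
            linear_combination e1 - e2
          rw [mem_coe, mem_insert, mem_singleton]
          rcases mul_eq_zero.1 e5 with e6 | e6
          · exact Or.inl (sub_eq_zero.1 e6)
          · exact Or.inr (sub_eq_zero.1 e6)
        · intro Y hY Z hZ hYZ
          have hY' := mem_filter.1 (mem_coe.1 hY)
          have hZ' := mem_filter.1 (mem_coe.1 hZ)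
          have hYt := (mem_filter.1 hY'.1).2
          have hZt := (mem_filter.1 hZ'.1).2
          have hbc := hY'.2.trans hZ'.2.symm
          have hYZ' : Y.1 0 0 = Z.1 0 0 := hYZ
          refine sl_ext Y Z hYZ' (congrArg Prod.fst hbc) (congrArg Prod.snd hbc) ?_
          unfold tr at hYt hZt
          have e4 : Y.1 1 1 = t - Y.1 0 0 := by rw [← hYt]; ring
          have e3 : Z.1 1 1 = t - Z.1 0 0 := by rw [← hZt]; ring
          rw [e4, e3, hYZ']
      exact h2.trans card_le_two)
  refine h1.trans (Nat.mul_le_mul_left 2 ?_)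
  refine (card_le_univ _).trans ?_
  rw [Fintype.card_prod, ZMod.card, sq]

open Classical in
theorem card_trace_zero : p * (p - 1) ≤ (univ.filter (fun X : SL2 p => tr X = 0)).card := by
  have h1 : (univ : Finset (ZMod p × (ZMod p)ˣ)).card = p * (p - 1) := by
    rw [card_univ, Fintype.card_prod, ZMod.card, ZMod.card_units]
  rw [← h1]
  refine card_le_card_of_injOn
    (fun ab => mk2 ab.1 ab.2 (-(1 + ab.1 ^ 2) * ((ab.2⁻¹ : (ZMod p)ˣ) : ZMod p)) (-ab.1) ?_) ?_ ?_
  · have h2 : ((ab.2 : (ZMod p)ˣ) : ZMod p) * ((ab.2⁻¹ : (ZMod p)ˣ) : ZMod p) = 1 :=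
      Units.mul_inv _
    linear_combination (1 + ab.1 ^ 2) * h2
  · intro ab _
    rw [mem_coe, mem_filter]
    refine ⟨mem_univ _, ?_⟩
    change ab.1 + -ab.1 = 0
    ring
  · intro ab _ ab' _ h
    have h3 : ab.1 = ab'.1 := congrArg (fun X : SL2 p => X.1 0 0) h
    have h4 : (ab.2 : ZMod p) = ab'.2 := congrArg (fun X : SL2 p => X.1 0 1) h
    exact Prod.ext h3 (Units.ext h4)

theorem card_sl_le : Fintype.card (SL2 p) ≤ p * (p ^ 2 - 1) := by
  classical
  have h1 := card_le_mul_card_image (f := fun X : SL2 p => (X.1 0 0, X.1 0 1))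
    (univ : Finset (SL2 p)) p (by
      intro ab _
      obtain ⟨a, b⟩ := ab
      by_cases ha : a = 0
      · have h2 : (univ.filter (fun X : SL2 p => (X.1 0 0, X.1 0 1) = (a, b))).card ≤
            (univ : Finset (ZMod p)).card := by
          refine card_le_card_of_injOn (fun Y => Y.1 1 1) (fun _ _ => mem_coe.2 (mem_univ _)) ?_
          intro Y hY Z hZ hYZ
          have hY' := (mem_filter.1 (mem_coe.1 hY)).2
          have hZ' := (mem_filter.1 (mem_coe.1 hZ)).2
          have y0 : Y.1 0 0 = 0 := (congrArg Prod.fst hY').trans ha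
          have z0 : Z.1 0 0 = 0 := (congrArg Prod.fst hZ').trans ha
          have yz : Y.1 0 1 = Z.1 0 1 := congrArg Prod.snd (hY'.trans hZ'.symm)
          have hYZ' : Y.1 1 1 = Z.1 1 1 := hYZ
          have e1 := det_eq Y
          have e2 := det_eq Z
          rw [y0, yz] at e1
          rw [z0] at e2
          have e3 : Z.1 0 1 * Y.1 1 0 = Z.1 0 1 * Z.1 1 0 := by linear_combination e2 - e1
          have e4 : Z.1 0 1 ≠ 0 := by
            intro h
            rw [h] at e2
            simp at e2
          exact sl_ext Y Z (y0.trans z0.symm) yz (mul_left_cancel₀ e4 e3) hYZ'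
        rwa [card_univ, ZMod.card] at h2
      · have h2 : (univ.filter (fun X : SL2 p => (X.1 0 0, X.1 0 1) = (a, b))).card ≤
            (univ : Finset (ZMod p)).card := by
          refine card_le_card_of_injOn (fun Y => Y.1 1 0) (fun _ _ => mem_coe.2 (mem_univ _)) ?_
          intro Y hY Z hZ hYZ
          have hY' := (mem_filter.1 (mem_coe.1 hY)).2
          have hZ' := (mem_filter.1 (mem_coe.1 hZ)).2
          have y0 : Y.1 0 0 = Z.1 0 0 := congrArg Prod.fst (hY'.trans hZ'.symm)
          have yz : Y.1 0 1 = Z.1 0 1 := congrArg Prod.snd (hY'.trans hZ'.symm)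
          have z0 : Z.1 0 0 = a := congrArg Prod.fst hZ'
          have hYZ' : Y.1 1 0 = Z.1 1 0 := hYZ
          have e1 := det_eq Y
          have e2 := det_eq Z
          rw [y0, yz, hYZ'] at e1
          have e3 : Z.1 0 0 * Y.1 1 1 = Z.1 0 0 * Z.1 1 1 := by linear_combination e1 - e2
          rw [z0] at e3
          exact sl_ext Y Z y0 yz hYZ' (mul_left_cancel₀ ha e3)
        rwa [card_univ, ZMod.card] at h2)
  rw [card_univ] at h1
  refine h1.trans (Nat.mul_le_mul_left p ?_)
  have h2 : (univ : Finset (SL2 p)).image (fun X : SL2 p => (X.1 0 0, X.1 0 1)) ⊆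
      (univ : Finset (ZMod p × ZMod p)).erase (0, 0) := by
    intro ab hab
    rw [mem_image] at hab
    obtain ⟨X, _, hX⟩ := hab
    rw [mem_erase]
    refine ⟨?_, mem_univ _⟩
    rintro rfl
    have e1 := det_eq X
    have z1 : X.1 0 0 = 0 := congrArg Prod.fst hX
    have z2 : X.1 0 1 = 0 := congrArg Prod.snd hX
    rw [z1, z2] at e1
    simp at e1
  refine (card_le_card h2).trans ?_
  rw [card_erase_of_mem (mem_univ _), card_univ, Fintype.card_prod, ZMod.card, sq]

theorem le_card_sl : p ^ 2 * (p - 1) ≤ Fintype.card (SL2 p) := by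
  classical
  have h1 : (univ : Finset ((ZMod p × ZMod p) × (ZMod p)ˣ)).card = p ^ 2 * (p - 1) := by
    rw [card_univ, Fintype.card_prod, Fintype.card_prod, ZMod.card, ZMod.card_units, sq]
  rw [← h1, ← card_univ]
  refine card_le_card_of_injOn
    (fun bca => mk2 bca.2 bca.1.1 bca.1.2
      ((1 + bca.1.1 * bca.1.2) * ((bca.2⁻¹ : (ZMod p)ˣ) : ZMod p)) ?_)
    (fun _ _ => mem_coe.2 (mem_univ _)) ?_
  · have h2 : ((bca.2 : (ZMod p)ˣ) : ZMod p) * ((bca.2⁻¹ : (ZMod p)ˣ) : ZMod p) = 1 :=
      Units.mul_inv _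
    linear_combination (1 + bca.1.1 * bca.1.2) * h2
  · intro x _ y _ h
    have h3 : (x.2 : ZMod p) = y.2 := congrArg (fun X : SL2 p => X.1 0 0) h
    have h4 : x.1.1 = y.1.1 := congrArg (fun X : SL2 p => X.1 0 1) h
    have h5 : x.1.2 = y.1.2 := congrArg (fun X : SL2 p => X.1 1 0) h
    exact Prod.ext (Prod.ext h4 h5) (Units.ext h3)

end count

end Pool.Agent.AlmRam
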