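import Mathlib

set_option autoImplicit false

/-!
# MP_e85204_al: a Bonferroni estimate for the products `g * h ^ j`
-/

namespace Pool.Agent.AlmRam

open Finset

open Classical in
/-- the indicator of a proposition -/
noncomputable def ind (A : Prop) : ℝ := if A then 1 else 0

theorem ind_true {A : Prop} (h : A) : ind A = 1 := if_pos h

theorem ind_false {A : Prop} (h : ¬ A) : ind A = 0 := if_neg h

theorem ind_nonneg (A : Prop) : 0 ≤ ind A := by
  unfold ind
  split_ifs <;> norm_num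

theorem bonf (A : ℕ → Prop) (J : ℕ) :
    ∑ j ∈ range J, ind (A j) - ∑ j ∈ range J, ∑ i ∈ range j, ind (A i ∧ A j) ≤
      ind (∃ j < J, A j) := by
  induction J with
  | zero => simpa using ind_nonneg _
  | succ J ih =>
    rw [sum_range_succ, sum_range_succ (fun j => ∑ i ∈ range j, ind (A i ∧ A j))]
    have hD : 0 ≤ ∑ j ∈ range J, ∑ i ∈ range j, ind (A i ∧ A j) :=
      sum_nonneg fun _ _ => sum_nonneg fun _ _ => ind_nonneg _
    by_cases h : A J
    · have h1 : ∑ i ∈ range J, ind (A i ∧ A J) = ∑ i ∈ range J, ind (A i) := by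
        refine sum_congr rfl fun i _ => ?_
        congr 1
        simp [h]
      rw [h1, ind_true h, ind_true (A := ∃ j < J + 1, A j) ⟨J, Nat.lt_succ_self J, h⟩]
      linarith
    · have h1 : ∑ i ∈ range J, ind (A i ∧ A J) = 0 :=
        sum_eq_zero fun i _ => ind_false fun h' => h h'.2
      have h2 : ind (∃ j < J + 1, A j) = ind (∃ j < J, A j) := by
        congr 1
        apply propext
        constructor
        · rintro ⟨j, hj, hA⟩
          rcases Nat.lt_succ_iff_lt_or_eq.1 hj with h3 | h3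
          · exact ⟨j, h3, hA⟩
          · exact absurd (h3 ▸ hA) h
        · rintro ⟨j, hj, hA⟩
          exact ⟨j, by omega, hA⟩
      rw [h1, ind_false h, h2]
      linarith

variable {Q : Type*} [Group Q] [Fintype Q] [DecidableEq Q] (T : Finset Q)

theorem sum_ind (A : Q → Prop) [DecidablePred A] : ∑ x, ind (A x) = (univ.filter A).card := by
  rw [card_filter]
  push_cast
  refine sum_congr rfl fun x _ => ?_
  unfold ind
  split_ifs <;> rfl

theorem sum_one (h : Q) (j : ℕ) : ∑ g : Q, ind (g * h ^ j ∈ T) = T.card := by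
  have h1 := Equiv.sum_comp (Equiv.mulRight (h ^ j)) (fun g => ind (g ∈ T))
  simp only [Equiv.coe_mulRight] at h1
  rw [h1, sum_ind]
  simp

theorem sum_two (h : Q) (i j : ℕ) (hij : i < j) :
    ∑ g : Q, ind (g * h ^ i ∈ T ∧ g * h ^ j ∈ T) =
      ∑ g ∈ T, ind (g * h ^ (j - i - 1 + 1) ∈ T) := by
  have h1 := Equiv.sum_comp (Equiv.mulRight (h ^ i))
    (fun g => ind (g ∈ T ∧ g * h ^ (j - i - 1 + 1) ∈ T))
  simp only [Equiv.coe_mulRight] at h1
  have h2 : ∀ g, g * h ^ i * h ^ (j - i - 1 + 1) = g * h ^ j := by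
    intro g
    rw [mul_assoc, ← pow_add]
    congr 2
    omega
  simp only [h2] at h1
  rw [h1, ← sum_filter_add_sum_filter_not univ (fun g => g ∈ T)]
  have h3 : ∑ g ∈ univ.filter (fun g => ¬ g ∈ T),
      ind (g ∈ T ∧ g * h ^ (j - i - 1 + 1) ∈ T) = 0 :=
    sum_eq_zero fun g hg => ind_false fun h' => (mem_filter.1 hg).2 h'.1
  rw [h3, add_zero, filter_mem_eq_inter, univ_inter]
  refine sum_congr rfl fun g hg => ?_
  congr 1
  simp [hg]

theorem comb (J : ℕ) (B : ℝ)
    (hB : ∀ g ∈ T, ∀ m < J, ((univ.filter fun h => g * h ^ (m + 1) ∈ T).card : ℝ) ≤ B) :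
    J * T.card * Fintype.card Q - J ^ 2 * (T.card * B) ≤
      ∑ h : Q, ∑ g : Q, ind (∃ j < J, g * h ^ j ∈ T) := by
  rcases T.eq_empty_or_nonempty with hT | ⟨g0, hg0⟩
  · subst hT
    simp only [card_empty]
    have : 0 ≤ ∑ h : Q, ∑ g : Q, ind (∃ j < J, g * h ^ j ∈ (∅ : Finset Q)) :=
      sum_nonneg fun _ _ => sum_nonneg fun _ _ => ind_nonneg _
    simpa using this
  rcases Nat.eq_zero_or_pos J with hJ | hJ
  · subst hJ
    have : 0 ≤ ∑ h : Q, ∑ g : Q, ind (∃ j < 0, g * h ^ j ∈ T) :=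
      sum_nonneg fun _ _ => sum_nonneg fun _ _ => ind_nonneg _
    simpa using this
  have hB0 : 0 ≤ B := (Nat.cast_nonneg _).trans (hB g0 hg0 0 hJ)
  have h1 : ∑ h : Q, ∑ g : Q, (∑ j ∈ range J, ind (g * h ^ j ∈ T) -
      ∑ j ∈ range J, ∑ i ∈ range j, ind (g * h ^ i ∈ T ∧ g * h ^ j ∈ T)) ≤
      ∑ h : Q, ∑ g : Q, ind (∃ j < J, g * h ^ j ∈ T) :=
    sum_le_sum fun h _ => sum_le_sum fun g _ => bonf (fun j => g * h ^ j ∈ T) J
  refine le_trans ?_ h1
  have h2 : ∀ h : Q, ∑ g : Q, (∑ j ∈ range J, ind (g * h ^ j ∈ T) -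
      ∑ j ∈ range J, ∑ i ∈ range j, ind (g * h ^ i ∈ T ∧ g * h ^ j ∈ T)) =
      J * T.card - ∑ j ∈ range J, ∑ i ∈ range j,
        ∑ g ∈ T, ind (g * h ^ (j - i - 1 + 1) ∈ T) := by
    intro h
    rw [sum_sub_distrib, sum_comm, sum_comm (t := range J)]
    congr 1
    · simp only [sum_one]
      rw [sum_const, card_range, nsmul_eq_mul]
    · refine sum_congr rfl fun j _ => ?_
      rw [sum_comm]
      refine sum_congr rfl fun i hi => ?_
      exact sum_two T h i j (mem_range.1 hi)
  simp only [h2]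
  rw [sum_sub_distrib, sum_const, card_univ, nsmul_eq_mul]
  have h3 : ∑ h : Q, ∑ j ∈ range J, ∑ i ∈ range j, ∑ g ∈ T,
      ind (g * h ^ (j - i - 1 + 1) ∈ T) ≤ J ^ 2 * (T.card * B) := by
    rw [sum_comm]
    calc ∑ j ∈ range J, ∑ h : Q, ∑ i ∈ range j, ∑ g ∈ T, ind (g * h ^ (j - i - 1 + 1) ∈ T)
        ≤ ∑ j ∈ range J, ∑ i ∈ range J, T.card * B := by
          refine sum_le_sum fun j hj => ?_
          rw [sum_comm]
          calc ∑ i ∈ range j, ∑ h : Q, ∑ g ∈ T, ind (g * h ^ (j - i - 1 + 1) ∈ T)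
              ≤ ∑ i ∈ range j, T.card * B := by
                refine sum_le_sum fun i hi => ?_
                rw [sum_comm]
                have h4 : ∀ g ∈ T, ∑ h : Q, ind (g * h ^ (j - i - 1 + 1) ∈ T) ≤ B := by
                  intro g hg
                  rw [sum_ind]
                  rw [mem_range] at hi hj
                  exact hB g hg _ (by omega)
                refine (sum_le_sum h4).trans ?_
                rw [sum_const, nsmul_eq_mul]
            _ ≤ ∑ i ∈ range J, T.card * B := by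
                refine sum_le_sum_of_subset_of_nonneg ?_ fun _ _ _ => by positivity
                intro i hi
                rw [mem_range] at hi hj ⊢
                omega
      _ = J ^ 2 * (T.card * B) := by
          rw [sum_const, sum_const, card_range, nsmul_eq_mul, nsmul_eq_mul]
          ring
  have h5 : (Fintype.card Q : ℝ) * (J * T.card) = J * T.card * Fintype.card Q := by ring
  rw [h5]
  linarith

omit [Group Q] [DecidableEq Q] in
theorem sum_tuple (e : ℕ) (F : Q → Q → ℝ) :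
    ∑ s : Fin (e + 2) → Q, F (s 0) (s 1) =
      (Fintype.card Q : ℝ) ^ e * ∑ h : Q, ∑ g : Q, F g h := by
  rw [← Equiv.sum_comp (Fin.consEquiv (fun _ : Fin (e + 2) => Q))
    (fun s => F (s 0) (s 1)), Fintype.sum_prod_type]
  have h1 : ∀ g : Q, ∑ t : Fin (e + 1) → Q,
      F ((Fin.consEquiv (fun _ : Fin (e + 2) => Q)) (g, t) 0)
        ((Fin.consEquiv (fun _ : Fin (e + 2) => Q)) (g, t) 1) =
      (Fintype.card Q : ℝ) ^ e * ∑ h : Q, F g h := by
    intro g
    change ∑ t : Fin (e + 1) → Q, F g (t 0) = _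
    rw [← Equiv.sum_comp (Fin.consEquiv (fun _ : Fin (e + 1) => Q))
      (fun t => F g (t 0)), Fintype.sum_prod_type]
    change ∑ h : Q, ∑ _u : Fin e → Q, F g h = _
    rw [mul_sum]
    refine sum_congr rfl fun h _ => ?_
    rw [sum_const, card_univ, Fintype.card_fun, Fintype.card_fin, nsmul_eq_mul]
    push_cast
    rfl
  simp only [h1]
  rw [← mul_sum, sum_comm]

end Pool.Agent.AlmRam
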