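import Pool.Agent.AlmRam.Pack

set_option autoImplicit false

/-!
# MP_e85204_al: short relations give many large eigenvalues

A finite form of Kesten's theorem: if a short positive word in the generators is trivial and the
group is large, then there is a space of functions with sum zero, of dimension at least
`δ * card G`, on which the adjacency operator of the Cayley graph expands the norm by more than
`2 * sqrt (2 * d - 1) + ε`.
-/

namespace Pool.Agent.AlmRam

open Finset

theorem sum_nb {G : Type*} [Group G] {d : ℕ} (s : Fin d → G) (g : G → ℝ) (x : G) :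
    ∑ j, g (nb s x j) = ∑ i, (g (x * s i) + g (x * (s i)⁻¹)) := by
  rw [Fintype.sum_prod_type]
  refine sum_congr rfl fun i _ => ?_
  rw [Fintype.sum_bool]
  simp [nb]

/-- **short positive relations give many large eigenvalues** -/
theorem kesten (d M : ℕ) (hd : 2 ≤ d) (hM : 1 ≤ M) :
    ∃ ε : ℝ, 0 < ε ∧ ∃ δ : ℝ, 0 < δ ∧ ∃ N : ℕ, ∀ (G : Type) [Group G] [Fintype G]
      (s : Fin d → G), N ≤ Fintype.card G →
      (∃ (m : ℕ) (w : ℕ → Fin d), 1 ≤ m ∧ m ≤ M ∧ pw s w m = 1) →
      ∃ W : Submodule ℝ (G → ℝ), δ * Fintype.card G ≤ Module.finrank ℝ W ∧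
        ∀ f ∈ W, ∑ x, f x = 0 ∧
        (f ≠ 0 → (2 * Real.sqrt (2 * (d : ℝ) - 1) + ε) ^ 2 * ∑ x, f x ^ 2 <
          ∑ x, (∑ i, (f (x * s i) + f (x * (s i)⁻¹))) ^ 2) := by
  classical
  have hd' : (2 : ℝ) ≤ d := by exact_mod_cast hd
  have hM' : (1 : ℝ) ≤ M := by exact_mod_cast hM
  set q : ℝ := 2 * (d : ℝ) - 1 with hq
  have hq3 : 3 ≤ q := by linarith
  set r := Real.sqrt q with hr
  have hr2 : r * r = q := Real.mul_self_sqrt (by linarith)
  have hr0 : 0 ≤ r := Real.sqrt_nonneg q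
  have hr1 : 1 < r := by nlinarith
  set θ := 1 / r with hθ
  have hθr : θ * r = 1 := by
    rw [hθ]
    field_simp
  have hθ0 : 0 < θ := by positivity
  have hθ1 : θ < 1 := by nlinarith
  have hqθ : q * θ ^ 2 = 1 := by
    calc q * θ ^ 2 = (θ * r) * (θ * r) := by rw [← hr2]; ring
      _ = 1 := by rw [hθr]; ring
  have hqθ' : q * θ = r := by
    calc q * θ = r * (θ * r) := by rw [← hr2]; ring
      _ = r := by rw [hθr]; ring
  set η := (1 - θ) ^ 2 * θ ^ (2 * M) / M with hη
  have hη0 : 0 < η := by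
    have : 0 < 1 - θ := by linarith
    positivity
  obtain ⟨T, hT⟩ := exists_nat_ge (4 * (M * η + q) / η)
  have hT' : 4 * (M * η + q) ≤ η * (T + 1) := by
    have h1 : 4 * (M * η + q) ≤ T * η := (div_le_iff₀ hη0).1 hT
    nlinarith
  set D : ℕ := 2 * (2 * d + 1) ^ (T + M + 1) with hD
  have hD0 : 0 < D := by positivity
  refine ⟨η / 2, by positivity, 1 / (2 * (D : ℝ) ^ 2), by positivity, 2 * D ^ 2, ?_⟩
  intro G _ _ s hcard ⟨m, w, hm, hmM, hw⟩
  let i0 : Fin d := ⟨0, by omega⟩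
  set l := lv s i0 (T + M) with hl
  have hlev : Lev s (T + M) l := lev_lv s i0 (T + M)
  set f := rad θ (T + M) l with hf
  set A := ∑ x, f x ^ 2 with hA
  have hf1 : f 1 = 1 := by
    rw [hf]
    unfold rad
    rw [hl, lv_one, if_pos (by omega), pow_zero]
  have hA1 : 1 ≤ A := by
    have h1 := single_le_sum (f := fun x => f x ^ 2) (fun x _ => sq_nonneg _) (mem_univ (1 : G))
    simp only [hf1] at h1
    rw [hA]
    linarith
  have hE := energy_le s (T + M) l hlev θ (Df s (T + M) l) (fun x hx => by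
    unfold Df at hx
    exact (mem_filter.1 hx).2) (by omega)
  have hDf := defect_mass s M T l hlev θ hθ0.le hθ1.le w m hm hmM hw
  have hL := low_big s M T l hlev θ hqθ
  have hb := ms_small s (T + M) l hlev θ hqθ T (T + M) (by omega) (le_refl _)
  unfold ms at hb
  rw [← hf, ← hA] at hE hL hb
  rw [← hf] at hDf
  set b := ∑ x ∈ univ.filter (fun x => l x = T + M), f x ^ 2 with hbdef
  set c := ∑ x ∈ Df s (T + M) l, f x ^ 2 with hcdef
  set S := ∑ x ∈ univ.filter (fun x => l x ≤ T), f x ^ 2 with hSdef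
  have hcS : η * S ≤ (1 - θ) ^ 2 * c := by
    have h1 : η * S * M = (1 - θ) ^ 2 * (θ ^ (2 * M) * S) := by
      rw [hη]
      field_simp
    have h2 : (1 - θ) ^ 2 * (θ ^ (2 * M) * S) ≤ (1 - θ) ^ 2 * (M * c) :=
      mul_le_mul_of_nonneg_left hDf (sq_nonneg _)
    have h3 : η * S * M ≤ (1 - θ) ^ 2 * c * M := by
      rw [h1]
      calc _ ≤ (1 - θ) ^ 2 * (M * c) := h2
        _ = _ := by ring
    exact le_of_mul_le_mul_right h3 (by linarith)
  have hmain : (η - η / 4) * A ≤ η * S - q * b := by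
    have hT0 : (0 : ℝ) < T + 1 := by positivity
    have h1 : (η - η / 4) * A * (T + 1) ≤ (η * S - q * b) * (T + 1) := by
      have h2 : η * ((T + 1 - M) * A) ≤ η * ((T + 1) * S) := mul_le_mul_of_nonneg_left hL hη0.le
      have h3 : q * ((T + 1) * b) ≤ q * A := mul_le_mul_of_nonneg_left hb (by linarith)
      have h4 : 4 * (M * η + q) * A ≤ η * (T + 1) * A :=
        mul_le_mul_of_nonneg_right hT' (by linarith)
      nlinarith
    exact le_of_mul_le_mul_right h1 hT0
  have hlow : (2 * r + (η - η / 4)) * A ≤ ∑ x, f x * ∑ j, f (nb s x j) := by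
    have h1 : (2 * (d : ℝ) - (2 * d - 1) * (1 - θ) ^ 2) = 2 * r := by
      have h2 : (2 * (d : ℝ) - (2 * d - 1) * (1 - θ) ^ 2) =
          1 + 2 * (q * θ) - q * θ ^ 2 := by rw [hq]; ring
      rw [h2, hqθ, hqθ']
      ring
    rw [h1] at hE
    have h3 : (2 * r + (η - η / 4)) * A = 2 * r * A + (η - η / 4) * A := by ring
    rw [h3]
    linarith
  have hsupp : ∀ x, f x ≠ 0 → x ∈ bl s i0 (T + M) := by
    intro x hx
    have h1 : l x ≤ T + M := by
      by_contra h
      apply hx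
      rw [hf]
      unfold rad
      rw [if_neg h]
    exact bl_mono s i0 h1 (mem_of_lv s i0 (T + M) x h1)
  obtain ⟨H, hH, hcardH⟩ := packing (bl s i0 (T + M + 1))
    ⟨1, bl_mono s i0 (by omega : 0 ≤ T + M + 1) (by simp [bl])⟩
  obtain ⟨W, hW, hW'⟩ := exists_space s f H (bl s i0 (T + M + 1))
    (fun x hx => ⟨bl_mono s i0 (by omega) (hsupp x hx), fun j => mem_succ s i0 _ x j (hsupp x hx)⟩)
    hH (by rw [hf1]; norm_num) (2 * r + (η - η / 4)) (2 * r + η / 2) (by linarith) (by linarith)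
    hlow
  refine ⟨W, ?_, ?_⟩
  · have h1 : Fintype.card G ≤ H.card * D ^ 2 :=
      hcardH.trans (Nat.mul_le_mul_left _ (Nat.pow_le_pow_left (card_bl s i0 _) 2))
    have h2 : (Fintype.card G : ℝ) ≤ (Module.finrank ℝ W + 1) * (D : ℝ) ^ 2 := by
      have h3 : Fintype.card G ≤ (Module.finrank ℝ W + 1) * D ^ 2 :=
        h1.trans (Nat.mul_le_mul_right _ hW)
      exact_mod_cast h3
    have h4 : (2 : ℝ) * (D : ℝ) ^ 2 ≤ Fintype.card G := by exact_mod_cast hcard
    have hD1 : (0 : ℝ) < (D : ℝ) ^ 2 := by positivity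
    rw [div_mul_eq_mul_div, one_mul, div_le_iff₀ (by positivity)]
    nlinarith
  · intro g hg
    obtain ⟨h1, h2⟩ := hW' g hg
    refine ⟨h1, fun hne => ?_⟩
    have h3 := h2 hne
    simp only [← sum_nb]
    exact h3

end Pool.Agent.AlmRam
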