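import Mathlib

set_option autoImplicit false

/-!
# MP_e85204_al: energy of a radial function on a Cayley graph

`s` is a family of `d` elements of a finite group.  The neighbours of a vertex `x` are indexed by
`Fin d × Bool`.  For a level function on the vertices the energy of a function that depends on the
level only is a sum over the steps which raise the level.
-/

namespace Pool.Agent.AlmRam

open Finset

variable {G : Type*} [Group G] {d : ℕ}

/-- the neighbours of a vertex of the Cayley graph -/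
def nb (s : Fin d → G) (x : G) (j : Fin d × Bool) : G :=
  if j.2 then x * s j.1 else x * (s j.1)⁻¹

/-- the index of the inverse step -/
def bk (j : Fin d × Bool) : Fin d × Bool := (j.1, !j.2)

theorem nb_bk (s : Fin d → G) (x : G) (j : Fin d × Bool) : nb s (nb s x j) (bk j) = x := by
  obtain ⟨i, b⟩ := j
  cases b <;> simp [nb, bk]

theorem bk_bk (j : Fin d × Bool) : bk (bk j) = j := by
  obtain ⟨i, b⟩ := j
  simp [bk]

variable [Fintype G]

theorem sum_symm (s : Fin d → G) (F : G → Fin d × Bool → ℝ) :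
    ∑ x, ∑ j, F x j = ∑ x, ∑ j, F (nb s x j) (bk j) := by
  have hinv : Function.Involutive (fun p : G × (Fin d × Bool) => (nb s p.1 p.2, bk p.2)) := by
    intro p
    simp [nb_bk, bk_bk]
  have h1 := Equiv.sum_comp hinv.toPerm (fun p : G × (Fin d × Bool) => F p.1 p.2)
  rw [← Fintype.sum_prod_type', ← Fintype.sum_prod_type', ← h1]
  rfl

theorem energy (s : Fin d → G) (l : G → ℕ) (f : G → ℝ) (hf : ∀ x y, l x = l y → f x = f y) :
    ∑ x, f x * ∑ j, f (nb s x j) = 2 * d * ∑ x, f x ^ 2 -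
      ∑ x, ∑ j, if l x < l (nb s x j) then (f x - f (nb s x j)) ^ 2 else 0 := by
  have h1 : ∑ x, ∑ j, (f x - f (nb s x j)) ^ 2 =
      2 * (2 * d * ∑ x, f x ^ 2) - 2 * ∑ x, f x * ∑ j, f (nb s x j) := by
    have h2 : ∑ x, ∑ j : Fin d × Bool, f x ^ 2 = 2 * d * ∑ x, f x ^ 2 := by
      simp only [sum_const, card_univ, Fintype.card_prod, Fintype.card_fin, Fintype.card_bool,
        nsmul_eq_mul]
      rw [← mul_sum]
      push_cast
      ring
    have h3 : ∑ x, ∑ j, f (nb s x j) ^ 2 = 2 * d * ∑ x, f x ^ 2 := by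
      rw [← h2, sum_symm s (fun x _ => f x ^ 2)]
    calc ∑ x, ∑ j, (f x - f (nb s x j)) ^ 2
        = ∑ x, ∑ j : Fin d × Bool, f x ^ 2 + ∑ x, ∑ j, f (nb s x j) ^ 2 -
            2 * ∑ x, f x * ∑ j, f (nb s x j) := by
          rw [← sum_add_distrib, mul_sum, ← sum_sub_distrib]
          refine sum_congr rfl fun x _ => ?_
          rw [← sum_add_distrib, mul_sum, mul_sum, ← sum_sub_distrib]
          refine sum_congr rfl fun j _ => ?_
          ring
      _ = _ := by rw [h2, h3]; ring
  have h4 : ∑ x, ∑ j, (f x - f (nb s x j)) ^ 2 =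
      ∑ x, ∑ j, (if l x < l (nb s x j) then (f x - f (nb s x j)) ^ 2 else 0) +
      ∑ x, ∑ j, (if l (nb s x j) < l x then (f x - f (nb s x j)) ^ 2 else 0) := by
    rw [← sum_add_distrib]
    refine sum_congr rfl fun x _ => ?_
    rw [← sum_add_distrib]
    refine sum_congr rfl fun j _ => ?_
    rcases lt_trichotomy (l x) (l (nb s x j)) with h | h | h
    · rw [if_pos h, if_neg (by omega)]; ring
    · rw [if_neg (by omega), if_neg (by omega), hf _ _ h]; ring
    · rw [if_neg (by omega), if_pos h]; ring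
  have h5 : ∑ x, ∑ j, (if l (nb s x j) < l x then (f x - f (nb s x j)) ^ 2 else 0) =
      ∑ x, ∑ j, (if l x < l (nb s x j) then (f x - f (nb s x j)) ^ 2 else 0) := by
    rw [sum_symm s (fun x j => if l (nb s x j) < l x then (f x - f (nb s x j)) ^ 2 else 0)]
    refine sum_congr rfl fun x _ => sum_congr rfl fun j _ => ?_
    rw [nb_bk]
    split_ifs
    · ring
    · rfl
  rw [h5] at h4
  linarith

/-- the steps which raise the level -/
def U (s : Fin d → G) (l : G → ℕ) (x : G) : Finset (Fin d × Bool) :=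
  univ.filter fun j => l x < l (nb s x j)

/-- a level function -/
structure Lev (s : Fin d → G) (R : ℕ) (l : G → ℕ) : Prop where
  up : ∀ x j, l (nb s x j) ≤ l x + 1
  nonup : ∀ x, l x ≤ R → ∃ j, l (nb s x j) ≤ l x
  par : ∀ x n, l x = n + 1 → n + 1 ≤ R → ∃ j, l (nb s x j) = n

theorem card_U (s : Fin d → G) (l : G → ℕ) (x : G) (j : Fin d × Bool)
    (hj : l (nb s x j) ≤ l x) : ((U s l x).card : ℝ) ≤ 2 * d - 1 := by
  have h1 : U s l x ⊆ univ.erase j := by
    intro i hi
    rw [mem_erase]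
    refine ⟨?_, mem_univ _⟩
    rintro rfl
    unfold U at hi
    rw [mem_filter] at hi
    omega
  have h2 := card_le_card h1
  rw [card_erase_of_mem (mem_univ _), card_univ, Fintype.card_prod, Fintype.card_fin,
    Fintype.card_bool] at h2
  have h3 : 0 < d := j.1.pos
  have h4 : (U s l x).card + 1 ≤ 2 * d := by omega
  have h5 : ((U s l x).card : ℝ) + 1 ≤ 2 * d := by exact_mod_cast h4
  linarith

theorem card_U' (s : Fin d → G) (l : G → ℕ) (x : G) (i j : Fin d × Bool) (hij : i ≠ j)
    (hi : l (nb s x i) ≤ l x) (hj : l (nb s x j) ≤ l x) :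
    ((U s l x).card : ℝ) ≤ 2 * d - 2 := by
  have h1 : U s l x ⊆ (univ.erase j).erase i := by
    intro t ht
    unfold U at ht
    rw [mem_filter] at ht
    rw [mem_erase, mem_erase]
    refine ⟨?_, ?_, mem_univ _⟩
    · rintro rfl; omega
    · rintro rfl; omega
  have h2 := card_le_card h1
  rw [card_erase_of_mem (mem_erase.2 ⟨hij, mem_univ _⟩), card_erase_of_mem (mem_univ _),
    card_univ, Fintype.card_prod, Fintype.card_fin, Fintype.card_bool] at h2
  have h3 : 0 < d := j.1.pos
  have h4 : (U s l x).card + 2 ≤ 2 * d := by omega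
  have h5 : ((U s l x).card : ℝ) + 2 ≤ 2 * d := by exact_mod_cast h4
  linarith

/-- the radial function -/
noncomputable def rad (θ : ℝ) (R : ℕ) (l : G → ℕ) (x : G) : ℝ := if l x ≤ R then θ ^ l x else 0

variable (s : Fin d → G) (R : ℕ) (l : G → ℕ) (hl : Lev s R l) (θ : ℝ)

theorem rad_congr (x y : G) (h : l x = l y) : rad θ R l x = rad θ R l y := by
  unfold rad
  rw [h]

include hl in
theorem up_sum (x : G) :
    (∑ j, if l x < l (nb s x j) then (rad θ R l x - rad θ R l (nb s x j)) ^ 2 else 0) =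
      (U s l x).card * (if l x < R then (1 - θ) ^ 2 * rad θ R l x ^ 2 else rad θ R l x ^ 2) := by
  rw [← sum_filter]
  change ∑ j ∈ U s l x, _ = _
  rw [← nsmul_eq_mul, ← sum_const]
  refine sum_congr rfl fun j hj => ?_
  unfold U at hj
  rw [mem_filter] at hj
  have h1 : l (nb s x j) = l x + 1 := le_antisymm (hl.up x j) hj.2
  unfold rad
  rw [h1]
  by_cases h2 : l x < R
  · rw [if_pos (by omega : l x ≤ R), if_pos (by omega : l x + 1 ≤ R), if_pos h2]
    ring
  · rw [if_neg h2, if_neg (by omega : ¬ (l x + 1 ≤ R))]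
    ring

variable (D : Finset G) (hD : ∀ x ∈ D, l x < R ∧ ((U s l x).card : ℝ) ≤ 2 * d - 2)
  (hd : 1 ≤ d)

include hl hD hd in
theorem energy_le :
    (2 * d - (2 * d - 1) * (1 - θ) ^ 2) * ∑ x, rad θ R l x ^ 2 +
      (1 - θ) ^ 2 * ∑ x ∈ D, rad θ R l x ^ 2 -
      (2 * d - 1) * ∑ x ∈ univ.filter (fun x => l x = R), rad θ R l x ^ 2 ≤
    ∑ x, rad θ R l x * ∑ j, rad θ R l (nb s x j) := by
  classical
  rw [energy s l _ (rad_congr R l θ)]
  have hd' : (1 : ℝ) ≤ d := by exact_mod_cast hd
  have key : ∑ x, ∑ j, (if l x < l (nb s x j) then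
      (rad θ R l x - rad θ R l (nb s x j)) ^ 2 else 0) ≤
      ∑ x, ((2 * d - 1) * (1 - θ) ^ 2 * rad θ R l x ^ 2 -
        (if x ∈ D then (1 - θ) ^ 2 * rad θ R l x ^ 2 else 0) +
        (if l x = R then (2 * d - 1) * rad θ R l x ^ 2 else 0)) := by
    refine sum_le_sum fun x _ => ?_
    rw [up_sum s R l hl θ x]
    have h0 : 0 ≤ (1 - θ) ^ 2 * rad θ R l x ^ 2 := by positivity
    have h0' : 0 ≤ rad θ R l x ^ 2 := by positivity
    have h0'' : 0 ≤ (2 * (d : ℝ) - 1) * ((1 - θ) ^ 2 * rad θ R l x ^ 2) :=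
      mul_nonneg (by linarith) h0
    rcases lt_trichotomy (l x) R with h | h | h
    · rw [if_pos h, if_neg (by omega : ¬ l x = R)]
      by_cases hx : x ∈ D
      · rw [if_pos hx]
        have h1 := mul_le_mul_of_nonneg_right (hD x hx).2 h0
        nlinarith [h1]
      · rw [if_neg hx]
        obtain ⟨j, hj⟩ := hl.nonup x (by omega)
        have h1 := mul_le_mul_of_nonneg_right (card_U s l x j hj) h0
        nlinarith [h1]
    · rw [if_neg (by omega), if_pos h, if_neg (fun hx => by have := (hD x hx).1; omega)]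
      obtain ⟨j, hj⟩ := hl.nonup x (by omega)
      have h1 := mul_le_mul_of_nonneg_right (card_U s l x j hj) h0'
      nlinarith [h1]
    · have h1 : rad θ R l x = 0 := by
        unfold rad
        rw [if_neg (by omega)]
      rw [h1]
      simp
  have h2 : ∑ x, ((2 * d - 1) * (1 - θ) ^ 2 * rad θ R l x ^ 2 -
        (if x ∈ D then (1 - θ) ^ 2 * rad θ R l x ^ 2 else 0) +
        (if l x = R then (2 * d - 1) * rad θ R l x ^ 2 else 0)) =
      (2 * d - 1) * (1 - θ) ^ 2 * ∑ x, rad θ R l x ^ 2 -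
        (1 - θ) ^ 2 * ∑ x ∈ D, rad θ R l x ^ 2 +
        (2 * d - 1) * ∑ x ∈ univ.filter (fun x => l x = R), rad θ R l x ^ 2 := by
    rw [sum_add_distrib, sum_sub_distrib, ← mul_sum, ← sum_filter, ← sum_filter, ← mul_sum,
      ← mul_sum]
    congr 3
    congr 1
    ext x
    simp
  rw [h2] at key
  linarith

end Pool.Agent.AlmRam
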