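import Pool.Agent.AlmRam.Power

set_option autoImplicit false

/-!
# MP_e85204_al: the elements of trace zero in `PSL(2, p)`
-/

namespace Pool.Agent.AlmRam

open Finset

theorem card_pre {G : Type*} [Group G] [Fintype G] (N : Subgroup G) [DecidableEq (G ⧸ N)]
    (S : Finset (G ⧸ N)) :
    (univ.filter (fun x : G => (QuotientGroup.mk x : G ⧸ N) ∈ S)).card =
      Nat.card N * S.card := by
  classical
  have hm : ∀ x ∈ univ.filter (fun x : G => (QuotientGroup.mk x : G ⧸ N) ∈ S),
      (QuotientGroup.mk x : G ⧸ N) ∈ S := fun x hx => (mem_filter.1 hx).2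
  rw [card_eq_sum_card_fiberwise hm]
  have h : ∀ g ∈ S, ((univ.filter (fun x : G => (QuotientGroup.mk x : G ⧸ N) ∈ S)).filter
      (fun x => (QuotientGroup.mk x : G ⧸ N) = g)).card = Nat.card N := by
    intro g hg
    obtain ⟨x, rfl⟩ := QuotientGroup.mk_surjective g
    have h1 : (univ.filter (fun x : G => (QuotientGroup.mk x : G ⧸ N) ∈ S)).filter
        (fun y => (QuotientGroup.mk y : G ⧸ N) = QuotientGroup.mk x) =
        (univ : Finset N).image (fun n : N => x * (n : G)) := by
      ext y
      simp only [mem_filter, mem_univ, true_and, mem_image]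
      constructor
      · rintro ⟨_, hy⟩
        exact ⟨⟨x⁻¹ * y, QuotientGroup.eq.1 hy.symm⟩, by simp⟩
      · rintro ⟨n, rfl⟩
        have h2 : (QuotientGroup.mk (x * (n : G)) : G ⧸ N) = QuotientGroup.mk x := by
          rw [eq_comm, QuotientGroup.eq]
          simp
        exact ⟨h2 ▸ hg, h2⟩
    rw [h1, card_image_of_injective _ (fun a b hab => Subtype.ext (mul_left_cancel hab)),
      card_univ, Nat.card_eq_fintype_card]
  rw [sum_congr rfl h, sum_const, smul_eq_mul, mul_comm]

variable (p : ℕ) [Fact p.Prime]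

/-- the projective special linear group -/
abbrev PSL2 : Type := SL2 p ⧸ Subgroup.center (SL2 p)

variable [Fintype (PSL2 p)] [DecidableEq (PSL2 p)]

open Classical in
/-- the elements of trace zero -/
noncomputable def T0 : Finset (PSL2 p) :=
  univ.filter fun g => ∃ x : SL2 p, tr x = 0 ∧ (QuotientGroup.mk x : PSL2 p) = g

variable {p}

theorem mem_T0 (x : SL2 p) : (QuotientGroup.mk x : PSL2 p) ∈ T0 p ↔ tr x = 0 := by
  unfold T0
  rw [mem_filter]
  constructor
  · rintro ⟨_, y, hy, hyx⟩
    have h1 := QuotientGroup.eq.1 hyx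
    have h2 : x = y * (y⁻¹ * x) := by simp
    rw [h2]
    exact tr_mul_center y _ h1 hy
  · intro h
    exact ⟨mem_univ _, x, h, rfl⟩

theorem sq_T0 (g : PSL2 p) (hg : g ∈ T0 p) : g * g = 1 := by
  obtain ⟨x, rfl⟩ := QuotientGroup.mk_surjective g
  rw [← QuotientGroup.mk_mul, QuotientGroup.eq_one_iff]
  exact sq_center x ((mem_T0 x).1 hg)

theorem card_center_pos : 0 < Nat.card (Subgroup.center (SL2 p)) := Nat.card_pos

theorem card_center_le : Nat.card (Subgroup.center (SL2 p)) ≤ p := by
  have h1 : Nat.card (ZMod p) = p := by rw [Nat.card_eq_fintype_card, ZMod.card]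
  refine (Nat.card_le_card_of_injective
    (fun z : Subgroup.center (SL2 p) => (z : SL2 p).1 0 0) ?_).trans h1.le
  intro z w hzw
  obtain ⟨r, hr⟩ := center_scalar z.1 z.2
  obtain ⟨t, ht⟩ := center_scalar w.1 w.2
  have h2 : r = t := by
    have h3 : (z : SL2 p).1 0 0 = (w : SL2 p).1 0 0 := hzw
    rw [hr, ht] at h3
    simpa using h3
  apply Subtype.ext
  apply Subtype.ext
  rw [hr, ht, h2]

theorem card_sl : Fintype.card (SL2 p) =
    Nat.card (Subgroup.center (SL2 p)) * Fintype.card (PSL2 p) := by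
  have h := card_pre (Subgroup.center (SL2 p)) univ
  simp only [mem_univ, filter_true] at h
  rw [← card_univ, ← card_univ]
  exact h

theorem card_tz : Nat.card (Subgroup.center (SL2 p)) * (T0 p).card =
    (univ.filter (fun x : SL2 p => tr x = 0)).card := by
  rw [← card_pre]
  congr 1
  ext x
  rw [mem_filter, mem_filter, mem_T0]

theorem card_le_T0 : Fintype.card (PSL2 p) ≤ (p + 1) * (T0 p).card := by
  classical
  refine Nat.le_of_mul_le_mul_left ?_ (card_center_pos (p := p))
  calc Nat.card (Subgroup.center (SL2 p)) * Fintype.card (PSL2 p)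
      = Fintype.card (SL2 p) := card_sl.symm
    _ ≤ p * (p ^ 2 - 1) := card_sl_le
    _ = (p + 1) * (p * (p - 1)) := by
        have h1 : 1 ≤ p := (Fact.out : p.Prime).one_le
        have h2 : p ^ 2 - 1 = (p + 1) * (p - 1) := by
          have := Nat.sq_sub_sq p 1
          simpa using this
        rw [h2]
        ring
    _ ≤ (p + 1) * (Nat.card (Subgroup.center (SL2 p)) * (T0 p).card) := by
        refine Nat.mul_le_mul_left _ ?_
        rw [card_tz]
        convert card_trace_zero (p := p)
    _ = _ := by ring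

theorem card_bad' (g : PSL2 p) (hg : g ∈ T0 p) (m : ℕ) :
    (univ.filter (fun h : PSL2 p => g * h ^ (m + 1) ∈ T0 p)).card * (p - 1) ≤
      2 * (m + 1) * Fintype.card (PSL2 p) := by
  classical
  obtain ⟨A, rfl⟩ := QuotientGroup.mk_surjective g
  have hA := (mem_T0 A).1 hg
  refine Nat.le_of_mul_le_mul_left ?_ (card_center_pos (p := p))
  let S : Finset (PSL2 p) :=
    univ.filter (fun h : PSL2 p => (QuotientGroup.mk A : PSL2 p) * h ^ (m + 1) ∈ T0 p)
  have h1 := card_pre (Subgroup.center (SL2 p)) S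
  have h2 : (univ.filter (fun x : SL2 p => (QuotientGroup.mk x : PSL2 p) ∈ S)) =
      univ.filter (fun x : SL2 p => tr (A * x ^ (m + 1)) = 0) := by
    ext x
    simp only [mem_univ, true_and, S, mem_filter]
    exact mem_T0 (A * x ^ (m + 1))
  rw [h2] at h1
  calc Nat.card (Subgroup.center (SL2 p)) * ((univ.filter (fun h : PSL2 p =>
        (QuotientGroup.mk A : PSL2 p) * h ^ (m + 1) ∈ T0 p)).card * (p - 1))
      = (univ.filter (fun x : SL2 p => tr (A * x ^ (m + 1)) = 0)).card * (p - 1) := by
        rw [h1]; ring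
    _ ≤ 2 * (m + 1) * p ^ 2 * (p - 1) := by
        refine Nat.mul_le_mul_right _ ?_
        convert card_bad A hA m
    _ = 2 * (m + 1) * (p ^ 2 * (p - 1)) := by ring
    _ ≤ 2 * (m + 1) * Fintype.card (SL2 p) := Nat.mul_le_mul_left _ le_card_sl
    _ = _ := by rw [card_sl]; ring

theorem le_card_psl : p - 1 ≤ Fintype.card (PSL2 p) := by
  have h1 : p * (p * (p - 1)) ≤ p * Fintype.card (PSL2 p) := by
    calc p * (p * (p - 1)) = p ^ 2 * (p - 1) := by ring
      _ ≤ Fintype.card (SL2 p) := le_card_sl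
      _ = _ := card_sl
      _ ≤ _ := Nat.mul_le_mul_right _ card_center_le
  have h2 := Nat.le_of_mul_le_mul_left h1 (Fact.out : p.Prime).pos
  refine le_trans ?_ h2
  exact Nat.le_mul_of_pos_left _ (Fact.out : p.Prime).pos

end Pool.Agent.AlmRam
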