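import Pool.Agent.AlmRam.Kesten
import Pool.Agent.AlmRam.Comb
import Pool.Agent.AlmRam.Quot

set_option autoImplicit false

/-!
# MP_e85204_al: the probability of many exceptional eigenvalues is not `O(1 / p)`
-/

namespace Pool.Agent.AlmRam

open Finset

/-- `PSL(2, p)` -/
abbrev PSL (p : ℕ) : Type :=
  Matrix.SpecialLinearGroup (Fin 2) (ZMod p) ⧸
    Subgroup.center (Matrix.SpecialLinearGroup (Fin 2) (ZMod p))

/-- The Cayley graph of `PSL(2, p)` with the generators `s i`, `(s i)⁻¹` has many exceptional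
eigenvalues: there is a space `W` of functions with sum zero, of dimension at least `δ` times
the number of vertices, such that `‖A f‖ > (2 * sqrt (2 * d - 1) + ε) * ‖f‖` for all nonzero
`f ∈ W`, where `A` is the adjacency operator. -/
def ManyExceptional {p d : ℕ} (ε δ : ℝ) (s : Fin d → PSL p) : Prop :=
  ∃ W : Submodule ℝ (PSL p → ℝ), δ * Nat.card (PSL p) ≤ Module.finrank ℝ W ∧
    ∀ f ∈ W, ∑ᶠ x, f x = 0 ∧
      (f ≠ 0 → (2 * Real.sqrt (2 * (d : ℝ) - 1) + ε) ^ 2 * ∑ᶠ x, f x ^ 2 <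
        ∑ᶠ x, (∑ i, (f (x * s i) + f (x * (s i)⁻¹))) ^ 2)

section words

variable {G : Type*} [Group G] {d : ℕ}

theorem pw_const (s : Fin d → G) (w : ℕ → Fin d) (c : Fin d) (k i : ℕ)
    (h : ∀ t < i, w (k + t) = c) : pw s w (k + i) = pw s w k * s c ^ i := by
  induction i with
  | zero => simp
  | succ i ih =>
    change pw s w (k + i) * s (w (k + i)) = _
    rw [ih fun t ht => h t (by omega), h i (by omega), pow_succ, mul_assoc]

theorem exists_word (s : Fin d → G) (a b : Fin d) (j : ℕ)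
    (h : (s a * s b ^ j) * (s a * s b ^ j) = 1) :
    ∃ w : ℕ → Fin d, pw s w (2 * j + 2) = 1 := by
  refine ⟨fun t => if t = 0 ∨ t = j + 1 then a else b, ?_⟩
  set w : ℕ → Fin d := fun t => if t = 0 ∨ t = j + 1 then a else b with hw
  have h1 : pw s w 1 = s a := by
    change 1 * s (w 0) = s a
    rw [one_mul, hw]
    simp
  have h2 : pw s w (1 + j) = s a * s b ^ j := by
    rw [pw_const s w b 1 j, h1]
    intro t ht
    rw [hw]
    change (if 1 + t = 0 ∨ 1 + t = j + 1 then a else b) = b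
    rw [if_neg (by omega)]
  have h3 : pw s w (j + 2) = s a * s b ^ j * s a := by
    have : j + 2 = (1 + j) + 1 := by omega
    rw [this]
    change pw s w (1 + j) * s (w (1 + j)) = _
    rw [h2, hw]
    change s a * s b ^ j * s (if 1 + j = 0 ∨ 1 + j = j + 1 then a else b) = _
    rw [if_pos (Or.inr (by omega))]
  have h4 : pw s w ((j + 2) + j) = s a * s b ^ j * s a * s b ^ j := by
    rw [pw_const s w b (j + 2) j, h3]
    intro t ht
    rw [hw]
    change (if j + 2 + t = 0 ∨ j + 2 + t = j + 1 then a else b) = b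
    rw [if_neg (by omega)]
  have h5 : 2 * j + 2 = (j + 2) + j := by omega
  rw [h5, h4, mul_assoc (s a * s b ^ j), h]

end words

/-- **main theorem** -/
theorem main (d : ℕ) (hd : 2 ≤ d) (C : ℝ) :
    ∃ ε : ℝ, 0 < ε ∧ ∃ δ : ℝ, 0 < δ ∧ ∃ P : ℕ, ∀ p : ℕ, p.Prime → P ≤ p →
      C * (Nat.card (PSL p) : ℝ) ^ d ≤
        p * Nat.card {s : Fin d → PSL p // ManyExceptional ε δ s} := by
  classical
  obtain ⟨J, hJ⟩ := exists_nat_ge (max (C + 2) 1)
  have hJC : C + 2 ≤ J := (le_max_left _ _).trans hJ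
  have hJ1 : (1 : ℝ) ≤ J := (le_max_right _ _).trans hJ
  have hJ1' : 1 ≤ J := by exact_mod_cast hJ1
  obtain ⟨ε, hε, δ, hδ, N, hK⟩ := kesten d (2 * J) hd (by omega)
  refine ⟨ε, hε, δ, hδ, N + 1 + (2 * J ^ 3 + 1) + J, ?_⟩
  intro p hp hPp
  haveI : Fact p.Prime := ⟨hp⟩
  have : Finite (PSL p) := by
    unfold PSL
    infer_instance
  let _ : Fintype (PSL p) := Fintype.ofFinite _
  let _ : Fintype (PSL2 p) := Fintype.ofFinite _
  obtain ⟨e, rfl⟩ : ∃ e, d = e + 2 := ⟨d - 2, by omega⟩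
  set n : ℝ := (Fintype.card (PSL2 p) : ℝ) with hn
  have hcard : (Nat.card (PSL p) : ℝ) = n := by
    rw [hn, Nat.card_eq_fintype_card]
  set τ : ℝ := ((T0 p).card : ℝ) with hτ
  have hp1 : (1 : ℝ) ≤ p := by exact_mod_cast hp.one_le
  have hpN : N ≤ Fintype.card (PSL2 p) := by
    have := le_card_psl (p := p)
    omega
  have hn0 : 0 < n := by
    rw [hn]
    exact_mod_cast Fintype.card_pos
  have hpJ : 2 * (J : ℝ) ^ 3 ≤ p - 1 := by
    have h1 : 2 * J ^ 3 + 1 ≤ p := by omega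
    have h2 : (2 * (J : ℝ) ^ 3 + 1) ≤ p := by exact_mod_cast h1
    linarith
  have hpJ' : (J : ℝ) ≤ p := by
    have h1 : J ≤ p := by omega
    exact_mod_cast h1
  have hp2 : (0 : ℝ) < p - 1 := by
    have : 0 < (J : ℝ) ^ 3 := by positivity
    linarith
  have hτ1 : n ≤ (p + 1) * τ := by
    have := card_le_T0 (p := p)
    rw [hn, hτ]
    exact_mod_cast this
  have hτ0 : 0 ≤ τ := by positivity
  have hB : ∀ g ∈ T0 p, ∀ m < J,
      ((univ.filter fun h => g * h ^ (m + 1) ∈ T0 p).card : ℝ) ≤ 2 * J * n / (p - 1) := by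
    intro g hg m hm
    rw [le_div_iff₀ hp2]
    have h1 := card_bad' g hg m
    have h2 : ((univ.filter fun h => g * h ^ (m + 1) ∈ T0 p).card : ℝ) * ((p - 1 : ℕ) : ℝ) ≤
        2 * (m + 1) * n := by
      rw [hn]
      exact_mod_cast h1
    rw [Nat.cast_sub hp.one_le, Nat.cast_one] at h2
    refine h2.trans ?_
    have h3 : (m : ℝ) + 1 ≤ J := by exact_mod_cast hm
    have h4 := mul_le_mul_of_nonneg_right h3 hn0.le
    nlinarith
  have hcomb := comb (T0 p) J (2 * J * n / (p - 1)) hB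
  have hlow : τ * n * (J - 1) ≤
      ∑ h : PSL2 p, ∑ g : PSL2 p, ind (∃ j < J, g * h ^ j ∈ T0 p) := by
    refine le_trans ?_ hcomb
    have h1 : (J : ℝ) ^ 2 * (τ * (2 * J * n / (p - 1))) ≤ τ * n := by
      have h2 : (J : ℝ) ^ 2 * (τ * (2 * J * n / (p - 1))) = τ * n * (2 * J ^ 3 / (p - 1)) := by
        ring
      rw [h2]
      have h3 : 2 * (J : ℝ) ^ 3 / (p - 1) ≤ 1 := by
        rw [div_le_one hp2]
        exact hpJ
      have h4 : 0 ≤ τ * n := mul_nonneg hτ0 hn0.le
      nlinarith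
    have h5 : (J : ℝ) * τ * n = τ * n * (J - 1) + τ * n := by ring
    rw [← hn, ← hτ, h5]
    linarith
  have htup := sum_tuple (Q := PSL2 p) e (fun g h => ind (∃ j < J, g * h ^ j ∈ T0 p))
  have hsub : ∑ s : Fin (e + 2) → PSL2 p, ind (∃ j < J, s 0 * s 1 ^ j ∈ T0 p) ≤
      Nat.card {s : Fin (e + 2) → PSL p // ManyExceptional ε δ s} := by
    rw [sum_ind, Nat.card_eq_fintype_card, Fintype.card_subtype]
    have h1 : (univ.filter fun s : Fin (e + 2) → PSL2 p => ∃ j < J, s 0 * s 1 ^ j ∈ T0 p) ⊆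
        univ.filter fun s : Fin (e + 2) → PSL p => ManyExceptional ε δ s := by
      intro s hs
      obtain ⟨j, hj, hsj⟩ := (mem_filter.1 hs).2
      rw [mem_filter]
      refine ⟨mem_univ _, ?_⟩
      obtain ⟨w, hw⟩ := exists_word s 0 1 j (sq_T0 _ hsj)
      obtain ⟨W, hW, hW'⟩ := hK (PSL2 p) s hpN ⟨2 * j + 2, w, by omega, by omega, hw⟩
      refine ⟨W, ?_, ?_⟩
      · rw [hcard]
        exact hW
      · intro f hf
        rw [finsum_eq_sum_of_fintype, finsum_eq_sum_of_fintype, finsum_eq_sum_of_fintype]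
        exact hW' f hf
    exact_mod_cast card_le_card h1
  have hfin : n ^ e * (τ * n * (J - 1)) ≤
      Nat.card {s : Fin (e + 2) → PSL p // ManyExceptional ε δ s} := by
    refine le_trans ?_ hsub
    rw [htup]
    exact mul_le_mul_of_nonneg_left hlow (by positivity)
  rw [hcard]
  have h6 : C * n ^ (e + 2) ≤ p * (n ^ e * (τ * n * (J - 1))) := by
    have h7 : C * n ≤ p * (τ * (J - 1)) := by
      have h8 : C * (p + 1) ≤ p * (J - 1) := by nlinarith
      have h9 : (0 : ℝ) ≤ J - 1 := by linarith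
      have h10 : n * (p * (J - 1)) ≤ (p + 1) * τ * (p * (J - 1)) :=
        mul_le_mul_of_nonneg_right hτ1 (by positivity)
      have h11 : C * (p + 1) * n ≤ p * (J - 1) * n := mul_le_mul_of_nonneg_right h8 hn0.le
      have h12 : (p + 1) * (C * n) ≤ (p + 1) * (p * (τ * (J - 1))) := by
        calc (p + 1) * (C * n) = C * (p + 1) * n := by ring
          _ ≤ p * (J - 1) * n := h11
          _ = n * (p * (J - 1)) := by ring
          _ ≤ (p + 1) * τ * (p * (J - 1)) := h10
          _ = _ := by ring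
      exact le_of_mul_le_mul_left h12 (by linarith)
    calc C * n ^ (e + 2) = n ^ (e + 1) * (C * n) := by ring
      _ ≤ n ^ (e + 1) * (p * (τ * (J - 1))) := mul_le_mul_of_nonneg_left h7 (by positivity)
      _ = _ := by ring
  exact h6.trans (mul_le_mul_of_nonneg_left hfin (by positivity))

end Pool.Agent.AlmRam
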