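import Pool.Agent.AlmRam.Level

set_option autoImplicit false

/-!
# MP_e85204_al: the masses of the levels, closed positive words and the balls
-/

namespace Pool.Agent.AlmRam

open Finset

variable {G : Type*} [Group G] {d : ℕ} [Fintype G]

/-- the mass of a level -/
noncomputable def ms (θ : ℝ) (R : ℕ) (l : G → ℕ) (n : ℕ) : ℝ :=
  ∑ x ∈ univ.filter (fun x => l x = n), rad θ R l x ^ 2

theorem ms_eq (θ : ℝ) (R : ℕ) (l : G → ℕ) (n : ℕ) (hn : n ≤ R) :
    ms θ R l n = (univ.filter (fun x => l x = n)).card * (θ ^ n) ^ 2 := by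
  unfold ms
  rw [← nsmul_eq_mul, ← sum_const]
  refine sum_congr rfl fun x hx => ?_
  rw [mem_filter] at hx
  unfold rad
  rw [hx.2, if_pos hn]

theorem ms_nonneg (θ : ℝ) (R : ℕ) (l : G → ℕ) (n : ℕ) : 0 ≤ ms θ R l n :=
  sum_nonneg fun _ _ => sq_nonneg _

theorem card_level (s : Fin d → G) (R : ℕ) (l : G → ℕ) (hl : Lev s R l) (n : ℕ)
    (hn : n + 1 ≤ R) :
    ((univ.filter (fun x => l x = n + 1)).card : ℝ) ≤
      (2 * d - 1) * (univ.filter (fun x => l x = n)).card := by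
  classical
  let S : Finset (Sigma fun _ : G => Fin d × Bool) :=
    (univ.filter (fun x => l x = n)).sigma (fun x => U s l x)
  have h1 : (univ.filter (fun x => l x = n + 1)).card ≤ S.card := by
    refine card_le_card_of_surjOn (fun p => nb s p.1 p.2) ?_
    intro y hy
    have hy' : l y = n + 1 := (mem_filter.1 hy).2
    obtain ⟨j, hj⟩ := hl.par y n hy' hn
    refine ⟨⟨nb s y j, bk j⟩, ?_, nb_bk s y j⟩
    change (⟨nb s y j, bk j⟩ : Sigma fun _ : G => Fin d × Bool) ∈ (S : Set _)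
    rw [mem_coe, mem_sigma]
    refine ⟨mem_filter.2 ⟨mem_univ _, hj⟩, ?_⟩
    unfold U
    rw [mem_filter]
    refine ⟨mem_univ _, ?_⟩
    change l (nb s y j) < l (nb s (nb s y j) (bk j))
    rw [nb_bk]
    omega
  have h2 : (S.card : ℝ) = ∑ x ∈ univ.filter (fun x => l x = n), ((U s l x).card : ℝ) := by
    rw [card_sigma]
    push_cast
    rfl
  calc ((univ.filter (fun x => l x = n + 1)).card : ℝ) ≤ S.card := by exact_mod_cast h1
    _ = ∑ x ∈ univ.filter (fun x => l x = n), ((U s l x).card : ℝ) := h2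
    _ ≤ ∑ x ∈ univ.filter (fun x => l x = n), (2 * (d : ℝ) - 1) := by
        refine sum_le_sum fun x hx => ?_
        have hx' := (mem_filter.1 hx).2
        obtain ⟨j, hj⟩ := hl.nonup x (by omega)
        exact card_U s l x j hj
    _ = _ := by rw [sum_const, nsmul_eq_mul, mul_comm]

theorem ms_succ (s : Fin d → G) (R : ℕ) (l : G → ℕ) (hl : Lev s R l) (θ : ℝ)
    (hθ : (2 * d - 1) * θ ^ 2 = 1) (n : ℕ) (hn : n + 1 ≤ R) :
    ms θ R l (n + 1) ≤ ms θ R l n := by
  rw [ms_eq θ R l _ hn, ms_eq θ R l n (by omega)]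
  have h1 := card_level s R l hl n hn
  have h2 : (0 : ℝ) ≤ (θ ^ (n + 1)) ^ 2 := by positivity
  have h3 := mul_le_mul_of_nonneg_right h1 h2
  have h4 : (2 * (d : ℝ) - 1) * ((univ.filter (fun x => l x = n)).card : ℝ) * (θ ^ (n + 1)) ^ 2 =
      ((univ.filter (fun x => l x = n)).card : ℝ) * (θ ^ n) ^ 2 * ((2 * d - 1) * θ ^ 2) := by
    ring
  rw [h4, hθ, mul_one] at h3
  exact h3

theorem ms_anti (s : Fin d → G) (R : ℕ) (l : G → ℕ) (hl : Lev s R l) (θ : ℝ)
    (hθ : (2 * d - 1) * θ ^ 2 = 1) (i n : ℕ) (hin : i ≤ n) (hn : n ≤ R) :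
    ms θ R l n ≤ ms θ R l i := by
  induction n, hin using Nat.le_induction with
  | base => exact le_refl _
  | succ n hin ih => exact (ms_succ s R l hl θ hθ n hn).trans (ih (by omega))

theorem sum_low (θ : ℝ) (R : ℕ) (l : G → ℕ) (n : ℕ) :
    ∑ x ∈ univ.filter (fun x => l x ≤ n), rad θ R l x ^ 2 =
      ∑ i ∈ range (n + 1), ms θ R l i := by
  classical
  rw [← sum_fiberwise_of_maps_to (s := univ.filter (fun x => l x ≤ n)) (t := range (n + 1))
    (g := l) (fun x hx => by rw [mem_filter] at hx; rw [mem_range]; omega)]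
  refine sum_congr rfl fun i hi => ?_
  unfold ms
  rw [mem_range] at hi
  rw [filter_filter]
  refine sum_congr ?_ fun _ _ => rfl
  ext x
  simp only [mem_filter, mem_univ, true_and]
  omega

theorem sum_all (θ : ℝ) (R : ℕ) (l : G → ℕ) :
    ∑ x, rad θ R l x ^ 2 = ∑ i ∈ range (R + 1), ms θ R l i := by
  rw [← sum_low]
  symm
  refine sum_subset (filter_subset _ _) fun x _ hx => ?_
  have h : ¬ l x ≤ R := fun h => hx (mem_filter.2 ⟨mem_univ _, h⟩)
  unfold rad
  rw [if_neg h]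
  ring

/-- the last levels carry a small part of the mass -/
theorem ms_small (s : Fin d → G) (R : ℕ) (l : G → ℕ) (hl : Lev s R l) (θ : ℝ)
    (hθ : (2 * d - 1) * θ ^ 2 = 1) (T n : ℕ) (hT : T ≤ n) (hn : n ≤ R) :
    ((T : ℝ) + 1) * ms θ R l n ≤ ∑ x, rad θ R l x ^ 2 := by
  rw [sum_all]
  calc ((T : ℝ) + 1) * ms θ R l n = ∑ i ∈ range (T + 1), ms θ R l n := by
        rw [sum_const, card_range, nsmul_eq_mul]; push_cast; ring
    _ ≤ ∑ i ∈ range (T + 1), ms θ R l i := by
        refine sum_le_sum fun i hi => ?_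
        rw [mem_range] at hi
        exact ms_anti s R l hl θ hθ i n (by omega) hn
    _ ≤ ∑ i ∈ range (R + 1), ms θ R l i := by
        refine sum_le_sum_of_subset_of_nonneg ?_ fun i _ _ => ms_nonneg θ R l i
        intro i hi
        rw [mem_range] at hi ⊢
        omega

theorem low_big (s : Fin d → G) (M T : ℕ) (l : G → ℕ) (hl : Lev s (T + M) l) (θ : ℝ)
    (hθ : (2 * d - 1) * θ ^ 2 = 1) :
    ((T : ℝ) + 1 - M) * ∑ x, rad θ (T + M) l x ^ 2 ≤
      ((T : ℝ) + 1) * ∑ x ∈ univ.filter (fun x => l x ≤ T), rad θ (T + M) l x ^ 2 := by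
  rw [sum_low]
  have h1 : ∑ x, rad θ (T + M) l x ^ 2 = ∑ i ∈ range (T + 1), ms θ (T + M) l i +
      ∑ i ∈ range M, ms θ (T + M) l (T + 1 + i) := by
    rw [sum_all, show T + M + 1 = T + 1 + M from by omega, sum_range_add]
  have h2 : ((T : ℝ) + 1) * ∑ i ∈ range M, ms θ (T + M) l (T + 1 + i) ≤
      M * ∑ x, rad θ (T + M) l x ^ 2 := by
    rw [mul_sum]
    calc ∑ i ∈ range M, ((T : ℝ) + 1) * ms θ (T + M) l (T + 1 + i)
        ≤ ∑ i ∈ range M, ∑ x, rad θ (T + M) l x ^ 2 := by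
          refine sum_le_sum fun i hi => ?_
          rw [mem_range] at hi
          exact ms_small s (T + M) l hl θ hθ T _ (by omega) (by omega)
      _ = _ := by rw [sum_const, card_range, nsmul_eq_mul]
  have h3 := congrArg (fun z => ((T : ℝ) + 1) * z) h1
  simp only [mul_add] at h3
  linarith

/-- the products along a positive word -/
def pw (s : Fin d → G) (w : ℕ → Fin d) : ℕ → G
  | 0 => 1
  | n + 1 => pw s w n * s (w n)

omit [Fintype G] in
theorem nb_pw (s : Fin d → G) (w : ℕ → Fin d) (g : G) (n : ℕ) :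
    nb s (g * pw s w n) (w n, true) = g * pw s w (n + 1) := by
  simp [nb, pw, mul_assoc]

omit [Fintype G] in
theorem nb_pw' (s : Fin d → G) (w : ℕ → Fin d) (g : G) (n : ℕ) :
    nb s (g * pw s w (n + 1)) (w n, false) = g * pw s w n := by
  simp [nb, pw, mul_assoc]

theorem level_pw (s : Fin d → G) (R : ℕ) (l : G → ℕ) (hl : Lev s R l) (w : ℕ → Fin d) (g : G)
    (n : ℕ) : l (g * pw s w n) ≤ l g + n := by
  induction n with
  | zero => simp [pw]
  | succ n ih =>
    have := hl.up (g * pw s w n) (w n, true)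
    rw [nb_pw] at this
    omega

/-- the vertices where at least two steps do not raise the level -/
def Df (s : Fin d → G) (R : ℕ) (l : G → ℕ) [DecidablePred fun x : G =>
    l x < R ∧ ((U s l x).card : ℝ) ≤ 2 * d - 2] : Finset G :=
  univ.filter fun x => l x < R ∧ ((U s l x).card : ℝ) ≤ 2 * d - 2

theorem exists_defect (s : Fin d → G) (R : ℕ) (l : G → ℕ) (hl : Lev s R l) (w : ℕ → Fin d)
    (m : ℕ) (hm : 1 ≤ m) (hw : pw s w m = 1) (g : G) (hg : l g + m ≤ R) :
    ∃ j ∈ Icc 1 m, l (g * pw s w j) < R ∧ l (g * pw s w j) ≤ l g + m ∧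
      ((U s l (g * pw s w j)).card : ℝ) ≤ 2 * d - 2 := by
  obtain ⟨j, hj, hmax⟩ := exists_max_image (Icc 1 m) (fun j => l (g * pw s w j))
    ⟨1, mem_Icc.2 ⟨le_refl _, hm⟩⟩
  have hj' := mem_Icc.1 hj
  have hlev : l (g * pw s w j) + 1 ≤ l g + m := by
    rcases Nat.lt_or_ge j m with h | h
    · have := level_pw s R l hl w g j
      omega
    · have h1 : j = m := le_antisymm hj'.2 h
      rw [h1, hw, mul_one]
      omega
  refine ⟨j, hj, by omega, by omega, ?_⟩
  obtain ⟨i, rfl⟩ : ∃ i, j = i + 1 := ⟨j - 1, by omega⟩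
  have hback : l (nb s (g * pw s w (i + 1)) (w i, false)) ≤ l (g * pw s w (i + 1)) := by
    rw [nb_pw']
    rcases Nat.eq_zero_or_pos i with h | h
    · have := hmax m (mem_Icc.2 ⟨hm, le_refl _⟩)
      simp only [hw, mul_one] at this
      subst h
      change l (g * 1) ≤ _
      rw [mul_one]
      exact this
    · exact hmax i (mem_Icc.2 ⟨h, by omega⟩)
  rcases Nat.lt_or_ge (i + 1) m with h | h
  · refine card_U' s l _ (w (i + 1), true) (w i, false) (by simp) ?_ hback
    rw [nb_pw]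
    exact hmax (i + 2) (mem_Icc.2 ⟨by omega, by omega⟩)
  · have h1 : i + 1 = m := le_antisymm hj'.2 h
    refine card_U' s l _ (w 0, true) (w i, false) (by simp) ?_ hback
    have h2 : g * pw s w (i + 1) = g * pw s w 0 := by rw [h1, hw]; rfl
    rw [h2, nb_pw, ← h2]
    exact hmax 1 (mem_Icc.2 ⟨le_refl _, hm⟩)

theorem defect_mass (s : Fin d → G) (M T : ℕ) (l : G → ℕ) (hl : Lev s (T + M) l) (θ : ℝ)
    (h0 : 0 ≤ θ) (h1 : θ ≤ 1) (w : ℕ → Fin d) (m : ℕ) (hm : 1 ≤ m) (hmM : m ≤ M)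
    (hw : pw s w m = 1)
    [DecidablePred fun x : G => l x < T + M ∧ ((U s l x).card : ℝ) ≤ 2 * d - 2] :
    θ ^ (2 * M) * ∑ x ∈ univ.filter (fun x => l x ≤ T), rad θ (T + M) l x ^ 2 ≤
      M * ∑ x ∈ Df s (T + M) l, rad θ (T + M) l x ^ 2 := by
  classical
  set f := rad θ (T + M) l with hf
  have key : ∀ g ∈ univ.filter (fun x => l x ≤ T), θ ^ (2 * M) * f g ^ 2 ≤
      ∑ j ∈ Icc 1 m, if g * pw s w j ∈ Df s (T + M) l then f (g * pw s w j) ^ 2 else 0 := by
    intro g hg
    have hg' := (mem_filter.1 hg).2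
    obtain ⟨j, hj, h2, h3, h4⟩ := exists_defect s (T + M) l hl w m hm hw g (by omega)
    have h5 : θ ^ (2 * M) * f g ^ 2 ≤ f (g * pw s w j) ^ 2 := by
      rw [hf]
      unfold rad
      rw [if_pos (by omega : l g ≤ T + M), if_pos (by omega : l (g * pw s w j) ≤ T + M)]
      have h6 : θ ^ (2 * M) * (θ ^ l g) ^ 2 = θ ^ (2 * (M + l g)) := by ring
      have h7 : (θ ^ l (g * pw s w j)) ^ 2 = θ ^ (2 * l (g * pw s w j)) := by ring
      rw [h6, h7]
      exact pow_le_pow_of_le_one h0 h1 (by omega)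
    refine h5.trans ?_
    have h6 := single_le_sum (f := fun j => if g * pw s w j ∈ Df s (T + M) l then
      f (g * pw s w j) ^ 2 else 0) (fun i _ => by split_ifs <;> positivity) hj
    refine le_trans (le_of_eq ?_) h6
    have h7 : g * pw s w j ∈ Df s (T + M) l := by
      unfold Df
      rw [mem_filter]
      exact ⟨mem_univ _, h2, h4⟩
    simp only [h7, if_true]
  calc θ ^ (2 * M) * ∑ x ∈ univ.filter (fun x => l x ≤ T), f x ^ 2
      = ∑ g ∈ univ.filter (fun x => l x ≤ T), θ ^ (2 * M) * f g ^ 2 := by rw [mul_sum]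
    _ ≤ ∑ g ∈ univ.filter (fun x => l x ≤ T), ∑ j ∈ Icc 1 m,
        (if g * pw s w j ∈ Df s (T + M) l then f (g * pw s w j) ^ 2 else 0) := sum_le_sum key
    _ ≤ ∑ g, ∑ j ∈ Icc 1 m,
        (if g * pw s w j ∈ Df s (T + M) l then f (g * pw s w j) ^ 2 else 0) :=
        sum_le_sum_of_subset_of_nonneg (filter_subset _ _) fun g _ _ =>
          sum_nonneg fun j _ => by split_ifs <;> positivity
    _ = ∑ j ∈ Icc 1 m, ∑ g,
        (if g * pw s w j ∈ Df s (T + M) l then f (g * pw s w j) ^ 2 else 0) := sum_comm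
    _ = ∑ j ∈ Icc 1 m, ∑ x ∈ Df s (T + M) l, f x ^ 2 := by
        refine sum_congr rfl fun j _ => ?_
        have h8 := Equiv.sum_comp (Equiv.mulRight (pw s w j))
          (fun x => if x ∈ Df s (T + M) l then f x ^ 2 else 0)
        simp only [Equiv.coe_mulRight] at h8
        rw [h8, sum_ite_mem, univ_inter]
    _ = m * ∑ x ∈ Df s (T + M) l, f x ^ 2 := by
        rw [sum_const, Nat.card_Icc, nsmul_eq_mul]; simp
    _ ≤ M * ∑ x ∈ Df s (T + M) l, f x ^ 2 := by
        refine mul_le_mul_of_nonneg_right (by exact_mod_cast hmM) ?_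
        exact sum_nonneg fun _ _ => sq_nonneg _

section balls

variable [DecidableEq G]

/-- the balls around the first step -/
def bl (s : Fin d → G) (i0 : Fin d) : ℕ → Finset G
  | 0 => {1, s i0}
  | n + 1 => bl s i0 n ∪ (bl s i0 n ×ˢ univ).image fun p => nb s p.1 p.2

theorem card_bl (s : Fin d → G) (i0 : Fin d) (n : ℕ) :
    (bl s i0 n).card ≤ 2 * (2 * d + 1) ^ n := by
  induction n with
  | zero => simpa [bl] using card_le_two
  | succ n ih =>
    unfold bl
    refine (card_union_le _ _).trans ?_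
    have h1 : ((bl s i0 n ×ˢ (univ : Finset (Fin d × Bool))).image
        fun p => nb s p.1 p.2).card ≤ (bl s i0 n).card * (2 * d) := by
      refine card_image_le.trans ?_
      rw [card_product, card_univ, Fintype.card_prod, Fintype.card_fin, Fintype.card_bool,
        mul_comm d 2]
    calc (bl s i0 n).card + _ ≤ (bl s i0 n).card + (bl s i0 n).card * (2 * d) := by
          exact Nat.add_le_add_left h1 _
      _ = (bl s i0 n).card * (2 * d + 1) := by ring
      _ ≤ 2 * (2 * d + 1) ^ n * (2 * d + 1) := Nat.mul_le_mul_right _ ih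
      _ = _ := by ring

theorem bl_mono (s : Fin d → G) (i0 : Fin d) {i n : ℕ} (h : i ≤ n) :
    bl s i0 i ⊆ bl s i0 n := by
  induction n, h using Nat.le_induction with
  | base => exact Subset.refl _
  | succ n _ ih => exact ih.trans subset_union_left

/-- the level of a vertex, cut at `R + 1` -/
noncomputable def lv (s : Fin d → G) (i0 : Fin d) (R : ℕ) (x : G) : ℕ :=
  open Classical in
  Nat.find (p := fun n => x ∈ bl s i0 n ∨ n = R + 1) ⟨R + 1, Or.inr rfl⟩

theorem lv_le (s : Fin d → G) (i0 : Fin d) (R : ℕ) (x : G) : lv s i0 R x ≤ R + 1 := by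
  classical
  unfold lv
  exact Nat.find_min' _ (Or.inr rfl)

theorem lv_le_of_mem (s : Fin d → G) (i0 : Fin d) (R : ℕ) (x : G) (n : ℕ)
    (h : x ∈ bl s i0 n) : lv s i0 R x ≤ n := by
  classical
  unfold lv
  exact Nat.find_min' _ (Or.inl h)

theorem mem_of_lv (s : Fin d → G) (i0 : Fin d) (R : ℕ) (x : G) (h : lv s i0 R x ≤ R) :
    x ∈ bl s i0 (lv s i0 R x) := by
  classical
  have h1 : x ∈ bl s i0 (lv s i0 R x) ∨ lv s i0 R x = R + 1 :=
    Nat.find_spec (p := fun n => x ∈ bl s i0 n ∨ n = R + 1) ⟨R + 1, Or.inr rfl⟩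
  rcases h1 with h1 | h1
  · exact h1
  · omega

theorem mem_succ (s : Fin d → G) (i0 : Fin d) (n : ℕ) (x : G) (j : Fin d × Bool)
    (h : x ∈ bl s i0 n) : nb s x j ∈ bl s i0 (n + 1) := by
  unfold bl
  rw [mem_union, mem_image]
  exact Or.inr ⟨(x, j), mem_product.2 ⟨h, mem_univ _⟩, rfl⟩

theorem lev_lv (s : Fin d → G) (i0 : Fin d) (R : ℕ) : Lev s R (lv s i0 R) := by
  have hup : ∀ x j, lv s i0 R (nb s x j) ≤ lv s i0 R x + 1 := by
    intro x j
    rcases Nat.lt_or_ge R (lv s i0 R x) with h | h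
    · have := lv_le s i0 R (nb s x j)
      omega
    · exact lv_le_of_mem s i0 R _ _ (mem_succ s i0 _ x j (mem_of_lv s i0 R x h))
  have hpar : ∀ x n, lv s i0 R x = n + 1 → n + 1 ≤ R → ∃ j, lv s i0 R (nb s x j) ≤ n := by
    intro x n hx hn
    have h1 := mem_of_lv s i0 R x (by omega)
    rw [hx] at h1
    unfold bl at h1
    rw [mem_union, mem_image] at h1
    rcases h1 with h1 | ⟨⟨y, j⟩, hy, hyx⟩
    · have := lv_le_of_mem s i0 R x n h1
      omega
    · refine ⟨bk j, ?_⟩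
      rw [← hyx, nb_bk]
      exact lv_le_of_mem s i0 R y n (mem_product.1 hy).1
  refine ⟨hup, ?_, ?_⟩
  · intro x hx
    rcases Nat.eq_zero_or_pos (lv s i0 R x) with h | h
    · have h1 := mem_of_lv s i0 R x hx
      rw [h] at h1
      unfold bl at h1
      rw [mem_insert, mem_singleton] at h1
      rw [h]
      rcases h1 with h1 | h1
      · refine ⟨(i0, true), lv_le_of_mem s i0 R _ 0 ?_⟩
        rw [h1]
        simp [nb, bl]
      · refine ⟨(i0, false), lv_le_of_mem s i0 R _ 0 ?_⟩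
        rw [h1]
        simp [nb, bl]
    · obtain ⟨n, hn⟩ : ∃ n, lv s i0 R x = n + 1 := ⟨lv s i0 R x - 1, by omega⟩
      obtain ⟨j, hj⟩ := hpar x n hn (by omega)
      exact ⟨j, by omega⟩
  · intro x n hx hn
    obtain ⟨j, hj⟩ := hpar x n hx hn
    refine ⟨j, ?_⟩
    have := hup (nb s x j) (bk j)
    rw [nb_bk] at this
    omega

theorem lv_one (s : Fin d → G) (i0 : Fin d) (R : ℕ) : lv s i0 R 1 = 0 := by
  have := lv_le_of_mem s i0 R 1 0 (by simp [bl])
  omega

theorem card_low (s : Fin d → G) (i0 : Fin d) (R : ℕ) :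
    (univ.filter (fun x => lv s i0 R x ≤ R)).card ≤ 2 * (2 * d + 1) ^ R := by
  refine le_trans (card_le_card ?_) (card_bl s i0 R)
  intro x hx
  rw [mem_filter] at hx
  exact bl_mono s i0 hx.2 (mem_of_lv s i0 R x hx.2)

end balls

end Pool.Agent.AlmRam
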