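import Pool.Agent.AlmRam.Mass

set_option autoImplicit false

/-!
# MP_e85204_al: many translates of a test function

If the translates by the elements of `H` of the support of a test function (and of the
neighbours of the support) are disjoint, then the span of the translated test functions is a
space of dimension `H.card` on which the quadratic form of the adjacency operator is as large
as on the test function.
-/

namespace Pool.Agent.AlmRam

open Finset

theorem diag_sum {ι G : Type*} [Fintype ι] [Fintype G] [DecidableEq ι] (a b : ι → G → ℝ)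
    (h : ∀ i j, i ≠ j → ∑ x, a i x * b j x = 0) :
    ∑ x, (∑ i, a i x) * (∑ i, b i x) = ∑ i, ∑ x, a i x * b i x := by
  simp_rw [sum_mul_sum]
  rw [sum_comm]
  refine sum_congr rfl fun i _ => ?_
  rw [sum_comm, sum_eq_single i]
  · intro j _ hj
    exact h i j (Ne.symm hj)
  · intro hi
    exact absurd (mem_univ i) hi

variable {G : Type*} [Group G] [Fintype G] [DecidableEq G]

/-- disjoint translates of a finite set -/
theorem packing (B : Finset G) (hB : B.Nonempty) : ∃ H : Finset G,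
    (∀ h ∈ H, ∀ h' ∈ H, h ≠ h' → ∀ x ∈ B, ∀ y ∈ B, h * x ≠ h' * y) ∧
      Fintype.card G ≤ H.card * B.card ^ 2 := by
  classical
  obtain ⟨b, hb⟩ := hB
  let S : Finset (Finset G) := univ.filter fun H =>
    ∀ h ∈ H, ∀ h' ∈ H, h ≠ h' → ∀ x ∈ B, ∀ y ∈ B, h * x ≠ h' * y
  obtain ⟨H, hH, hmax⟩ := exists_max_image S card ⟨∅, by simp [S]⟩
  have hH' := (mem_filter.1 hH).2
  refine ⟨H, hH', ?_⟩
  have key : ∀ g : G, ∃ h ∈ H, ∃ x ∈ B, ∃ y ∈ B, g * x = h * y := by
    intro g
    by_contra hcon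
    push Not at hcon
    have hg : g ∉ H := fun h => hcon g h b hb b hb rfl
    have h1 : insert g H ∈ S := by
      rw [mem_filter]
      refine ⟨mem_univ _, ?_⟩
      intro h hh h' hh' hne x hx y hy
      rw [mem_insert] at hh hh'
      rcases hh with rfl | hh
      · rcases hh' with rfl | hh'
        · exact absurd rfl hne
        · exact hcon h' hh' x hx y hy
      · rcases hh' with rfl | hh'
        · exact (hcon h hh y hy x hx).symm
        · exact hH' h hh h' hh' hne x hx y hy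
    have h2 := hmax _ h1
    rw [card_insert_of_notMem hg] at h2
    omega
  have h3 : (univ : Finset G) ⊆ (H ×ˢ (B ×ˢ B)).image fun t => t.1 * t.2.1 * t.2.2⁻¹ := by
    intro g _
    obtain ⟨h, hh, x, hx, y, hy, e⟩ := key g
    rw [mem_image]
    refine ⟨(h, y, x), mem_product.2 ⟨hh, mem_product.2 ⟨hy, hx⟩⟩, ?_⟩
    change h * y * x⁻¹ = g
    rw [← e]
    simp
  have h4 := (card_le_card h3).trans card_image_le
  rw [card_univ, card_product, card_product, ← sq] at h4
  exact h4

/-- combinations of translates -/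
noncomputable def trans (f : G → ℝ) (H : Finset G) : (H → ℝ) →ₗ[ℝ] (G → ℝ) where
  toFun c x := ∑ h : H, c h * f ((h : G)⁻¹ * x)
  map_add' c e := by
    ext x
    change ∑ h : H, (c h + e h) * f ((h : G)⁻¹ * x) = _
    simp only [add_mul, sum_add_distrib]
    rfl
  map_smul' r c := by
    ext x
    change ∑ h : H, (r * c h) * f ((h : G)⁻¹ * x) = r * ∑ h : H, c h * f ((h : G)⁻¹ * x)
    rw [mul_sum]
    exact sum_congr rfl fun h _ => by ring

variable {d : ℕ} (s : Fin d → G) (f : G → ℝ) (H B : Finset G)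
  (hB : ∀ x, f x ≠ 0 → x ∈ B ∧ ∀ j, nb s x j ∈ B)
  (hH : ∀ h ∈ H, ∀ h' ∈ H, h ≠ h' → ∀ x ∈ B, ∀ y ∈ B, h * x ≠ h' * y)

omit [Fintype G] [DecidableEq G] in
theorem nb_mul (h x : G) (j : Fin d × Bool) : nb s (h * x) j = h * nb s x j := by
  unfold nb
  split_ifs <;> rw [mul_assoc]

theorem sum_trans (F : G → ℝ) (h : G) : ∑ x, F (h⁻¹ * x) = ∑ x, F x :=
  Equiv.sum_comp (Equiv.mulLeft h⁻¹) F

theorem trans_sum (c : H → ℝ) :
    ∑ x, trans f H c x = (∑ h, c h) * ∑ x, f x := by
  change ∑ x, ∑ h : H, c h * f ((h : G)⁻¹ * x) = _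
  rw [sum_comm, sum_mul]
  refine sum_congr rfl fun h _ => ?_
  rw [← mul_sum, sum_trans]

include hB hH in
theorem trans_sq (c : H → ℝ) :
    ∑ x, trans f H c x ^ 2 = (∑ h, c h ^ 2) * ∑ x, f x ^ 2 := by
  have h1 := diag_sum (fun (h : H) x => c h * f ((h : G)⁻¹ * x))
    (fun (h : H) x => c h * f ((h : G)⁻¹ * x)) (by
      intro h h' hne
      refine sum_eq_zero fun x _ => ?_
      by_cases h2 : f ((h : G)⁻¹ * x) = 0
      · simp [h2]
      by_cases h3 : f ((h' : G)⁻¹ * x) = 0
      · simp [h3]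
      exfalso
      refine hH h h.2 h' h'.2 (fun e => hne (Subtype.ext e)) _ (hB _ h2).1 _ (hB _ h3).1 ?_
      simp)
  have h4 : ∀ x, trans f H c x ^ 2 =
      (∑ h : H, c h * f ((h : G)⁻¹ * x)) * (∑ h : H, c h * f ((h : G)⁻¹ * x)) := by
    intro x
    rw [sq]
    rfl
  simp only [h4]
  rw [h1, sum_mul]
  refine sum_congr rfl fun h _ => ?_
  rw [← sum_trans (fun x => f x ^ 2) (h : G), mul_sum]
  exact sum_congr rfl fun x _ => by ring

include hB hH in
theorem trans_form (c : H → ℝ) :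
    ∑ x, trans f H c x * ∑ j, trans f H c (nb s x j) =
      (∑ h, c h ^ 2) * ∑ x, f x * ∑ j, f (nb s x j) := by
  have h1 := diag_sum (fun (h : H) x => c h * f ((h : G)⁻¹ * x))
    (fun (h : H) x => ∑ j, c h * f ((h : G)⁻¹ * nb s x j)) (by
      intro h h' hne
      refine sum_eq_zero fun x _ => ?_
      by_cases h2 : f ((h : G)⁻¹ * x) = 0
      · simp [h2]
      have h5 : ∑ j, c h' * f ((h' : G)⁻¹ * nb s x j) = 0 := by
        refine sum_eq_zero fun j _ => ?_
        by_cases h3 : f ((h' : G)⁻¹ * nb s x j) = 0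
        · simp [h3]
        exfalso
        refine hH h h.2 h' h'.2 (fun e => hne (Subtype.ext e)) _ ((hB _ h2).2 j) _
          (hB _ h3).1 ?_
        rw [nb_mul]
        simp
      rw [h5, mul_zero])
  have h4 : ∀ x, trans f H c x * ∑ j, trans f H c (nb s x j) =
      (∑ h : H, c h * f ((h : G)⁻¹ * x)) *
        (∑ h : H, ∑ j, c h * f ((h : G)⁻¹ * nb s x j)) := by
    intro x
    rw [sum_comm (s := (univ : Finset H))]
    rfl
  simp only [h4]
  rw [h1, sum_mul]
  refine sum_congr rfl fun h _ => ?_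
  rw [← sum_trans (fun x => f x * ∑ j, f (nb s x j)) (h : G), mul_sum]
  refine sum_congr rfl fun x _ => ?_
  simp only [nb_mul]
  rw [← mul_sum]
  ring

include hB hH in
theorem trans_inj (h1 : f 1 ≠ 0) (c : H → ℝ) (hc : trans f H c = 0) : c = 0 := by
  have hA : 0 < ∑ x, f x ^ 2 := by
    have := single_le_sum (f := fun x => f x ^ 2) (fun x _ => sq_nonneg _) (mem_univ (1 : G))
    have h2 : 0 < f 1 ^ 2 := by positivity
    exact lt_of_lt_of_le h2 this
  have h3 := trans_sq s f H B hB hH c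
  rw [hc] at h3
  simp only [Pi.zero_apply] at h3
  have h4 : ∑ h, c h ^ 2 = 0 := by
    rcases mul_eq_zero.1 (h3.symm.trans (by simp)) with h5 | h5
    · exact h5
    · exact absurd h5 hA.ne'
  funext h
  have h6 := (sum_eq_zero_iff_of_nonneg (fun h _ => sq_nonneg (c h))).1 h4 h (mem_univ h)
  exact pow_eq_zero_iff (by norm_num) |>.1 h6

include hB hH in
/-- the space of combinations of translates with sum zero -/
theorem exists_space (h1 : f 1 ≠ 0) (c κ : ℝ) (hκ : 0 ≤ κ) (hκc : κ < c)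
    (hf : c * ∑ x, f x ^ 2 ≤ ∑ x, f x * ∑ j, f (nb s x j)) :
    ∃ W : Submodule ℝ (G → ℝ), H.card ≤ Module.finrank ℝ W + 1 ∧
      ∀ g ∈ W, ∑ x, g x = 0 ∧
        (g ≠ 0 → κ ^ 2 * ∑ x, g x ^ 2 < ∑ x, (∑ j, g (nb s x j)) ^ 2) := by
  let σ : (H → ℝ) →ₗ[ℝ] ℝ := ∑ h : H, LinearMap.proj h
  have hσ : ∀ e : H → ℝ, σ e = ∑ h, e h := by
    intro e
    simp [σ]
  let Φ : LinearMap.ker σ →ₗ[ℝ] (G → ℝ) := (trans f H).comp (LinearMap.ker σ).subtype
  have hinj : Function.Injective Φ := by
    rw [injective_iff_map_eq_zero]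
    intro e he
    exact Subtype.ext (trans_inj s f H B hB hH h1 e.1 he)
  have hA : 0 < ∑ x, f x ^ 2 := by
    have := single_le_sum (f := fun x => f x ^ 2) (fun x _ => sq_nonneg _) (mem_univ (1 : G))
    have h2 : 0 < f 1 ^ 2 := by positivity
    exact lt_of_lt_of_le h2 this
  refine ⟨LinearMap.range Φ, ?_, ?_⟩
  · rw [LinearMap.finrank_range_of_inj hinj]
    have h2 := LinearMap.finrank_range_add_finrank_ker σ
    rw [Module.finrank_fintype_fun_eq_card, Fintype.card_coe] at h2
    have h3 : Module.finrank ℝ (LinearMap.range σ) ≤ 1 := by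
      have := Submodule.finrank_le (LinearMap.range σ)
      rwa [Module.finrank_self] at this
    omega
  · rintro g ⟨e, rfl⟩
    have he : ∑ h, e.1 h = 0 := by
      have := e.2
      rw [LinearMap.mem_ker, hσ] at this
      exact this
    have e1 : Φ e = trans f H e.1 := rfl
    rw [e1]
    refine ⟨by rw [trans_sum, he, zero_mul], ?_⟩
    intro hne
    have h2 := trans_sq s f H B hB hH e.1
    have h3 := trans_form s f H B hB hH e.1
    set g := trans f H e.1 with hg
    set E := ∑ h, e.1 h ^ 2 with hE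
    have hE0 : 0 < E := by
      rcases (sum_nonneg fun h _ => sq_nonneg (e.1 h) : 0 ≤ ∑ h, e.1 h ^ 2).lt_or_eq with h4 | h4
      · exact h4
      · exfalso
        apply hne
        have h5 : e.1 = 0 := by
          funext h
          have h6 := (sum_eq_zero_iff_of_nonneg (fun h _ => sq_nonneg (e.1 h))).1 h4.symm h
            (mem_univ h)
          exact pow_eq_zero_iff (by norm_num) |>.1 h6
        rw [hg, h5, map_zero]
    have hN : 0 < ∑ x, g x ^ 2 := by
      rw [h2]
      positivity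
    have h4 : c * ∑ x, g x ^ 2 ≤ ∑ x, g x * ∑ j, g (nb s x j) := by
      rw [h2, h3]
      calc c * (E * ∑ x, f x ^ 2) = E * (c * ∑ x, f x ^ 2) := by ring
        _ ≤ _ := mul_le_mul_of_nonneg_left hf hE0.le
    have h5 : (∑ x, g x * ∑ j, g (nb s x j)) ^ 2 ≤
        (∑ x, g x ^ 2) * ∑ x, (∑ j, g (nb s x j)) ^ 2 := sum_mul_sq_le_sq_mul_sq _ _ _
    have h6 : (∑ x, g x ^ 2) * (c ^ 2 * ∑ x, g x ^ 2) ≤
        (∑ x, g x ^ 2) * ∑ x, (∑ j, g (nb s x j)) ^ 2 := by
      refine le_trans ?_ h5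
      calc (∑ x, g x ^ 2) * (c ^ 2 * ∑ x, g x ^ 2) = (c * ∑ x, g x ^ 2) ^ 2 := by ring
        _ ≤ _ := pow_le_pow_left₀ (mul_nonneg (by linarith) hN.le) h4 2
    have h7 := le_of_mul_le_mul_left h6 hN
    refine lt_of_lt_of_le ?_ h7
    exact mul_lt_mul_of_pos_right (pow_lt_pow_left₀ hκc hκ (by norm_num)) hN

end Pool.Agent.AlmRam
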