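import Pool.Agent.AlmRam.Count

set_option autoImplicit false

/-!
# MP_e85204_al: the trace of `A * X ^ m` for a matrix `A` of trace zero
-/

namespace Pool.Agent.AlmRam

open Finset Matrix Polynomial

variable {p : ℕ} [Fact p.Prime]

/-- the polynomials with `X ^ (m + 1) = P (m + 1) X - P m` for matrices of determinant one -/
noncomputable def P (p : ℕ) : ℕ → (ZMod p)[X]
  | 0 => 0
  | 1 => 1
  | m + 2 => X * P p (m + 1) - P p m

theorem P_deg (m : ℕ) : (P p m).natDegree ≤ m - 1 ∧ (P p (m + 1)).natDegree ≤ m ∧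
    (P p (m + 1)).coeff m = 1 := by
  induction m with
  | zero => simp [P]
  | succ m ih =>
    obtain ⟨h1, h2, h3⟩ := ih
    refine ⟨by simpa using h2, ?_, ?_⟩
    · change (X * P p (m + 1) - P p m).natDegree ≤ m + 1
      refine (natDegree_sub_le _ _).trans (max_le ?_ (by omega))
      refine natDegree_mul_le.trans ?_
      rw [natDegree_X]
      omega
    · change (X * P p (m + 1) - P p m).coeff (m + 1) = 1
      rw [coeff_sub, coeff_X_mul, h3, coeff_eq_zero_of_natDegree_lt (by omega), sub_zero]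

theorem P_ne_zero (m : ℕ) : P p (m + 1) ≠ 0 := by
  intro h
  have := (P_deg (p := p) m).2.2
  rw [h] at this
  simp at this

theorem sq_eq (X : SL2 p) : X.1 * X.1 = tr X • X.1 - 1 := by
  have h := det_eq X
  ext i j
  fin_cases i <;> fin_cases j <;>
    simp only [Matrix.mul_apply, Fin.sum_univ_two, Matrix.sub_apply, Matrix.smul_apply,
      smul_eq_mul, tr, Fin.zero_eta, Fin.mk_one, Matrix.one_apply_eq, Matrix.one_apply,
      Fin.isValue, zero_ne_one, one_ne_zero, if_false]
  · linear_combination -h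
  · ring
  · ring
  · linear_combination -h

theorem pow_eq (X : SL2 p) (m : ℕ) :
    X.1 ^ (m + 1) = (P p (m + 1)).eval (tr X) • X.1 - (P p m).eval (tr X) • 1 := by
  induction m with
  | zero => simp [P]
  | succ m ih =>
    rw [pow_succ, ih, sub_mul, smul_mul_assoc, smul_mul_assoc, one_mul, sq_eq]
    change _ = (Polynomial.X * P p (m + 1) - P p m).eval (tr X) • X.1 - _
    rw [eval_sub, eval_mul, eval_X]
    module

theorem val_mul (A B : SL2 p) : (A * B).1 = A.1 * B.1 := rfl

theorem val_pow (A : SL2 p) (m : ℕ) : (A ^ m).1 = A.1 ^ m := by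
  induction m with
  | zero => rfl
  | succ m ih => rw [pow_succ, pow_succ, val_mul, ih]

theorem tr_eq (X : SL2 p) : tr X = Matrix.trace X.1 := (Matrix.trace_fin_two X.1).symm

theorem tr_mul_pow (A X : SL2 p) (hA : tr A = 0) (m : ℕ) :
    tr (A * X ^ (m + 1)) = (P p (m + 1)).eval (tr X) * tr (A * X) := by
  have h1 : (A * X ^ (m + 1)).1 = A.1 * X.1 ^ (m + 1) := by
    rw [val_mul, val_pow]
  rw [tr_eq, h1, pow_eq, mul_sub, Matrix.mul_smul, Matrix.mul_smul, mul_one, Matrix.trace_sub,
    Matrix.trace_smul, Matrix.trace_smul, ← tr_eq A, hA, tr_eq (A * X), val_mul]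
  simp

open Classical in
theorem card_bad (A : SL2 p) (hA : tr A = 0) (m : ℕ) :
    (univ.filter (fun X : SL2 p => tr (A * X ^ (m + 1)) = 0)).card ≤
      2 * (m + 1) * p ^ 2 := by
  have h1 : univ.filter (fun X : SL2 p => tr (A * X ^ (m + 1)) = 0) ⊆
      ((P p (m + 1)).roots.toFinset.biUnion fun t => univ.filter (fun X : SL2 p => tr X = t)) ∪
        univ.filter (fun X : SL2 p => tr (A * X) = 0) := by
    intro Y hY
    have hY' := (mem_filter.1 hY).2
    rw [tr_mul_pow A Y hA] at hY'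
    rw [mem_union]
    rcases mul_eq_zero.1 hY' with h | h
    · left
      rw [mem_biUnion]
      refine ⟨tr Y, ?_, mem_filter.2 ⟨mem_univ _, rfl⟩⟩
      rw [Multiset.mem_toFinset, mem_roots (P_ne_zero m)]
      exact h
    · exact Or.inr (mem_filter.2 ⟨mem_univ _, h⟩)
  have h2 : ((P p (m + 1)).roots.toFinset.biUnion
      fun t => univ.filter (fun X : SL2 p => tr X = t)).card ≤ m * (2 * p ^ 2) := by
    refine card_biUnion_le.trans ?_
    refine (sum_le_sum fun t _ => card_trace t).trans ?_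
    rw [sum_const, smul_eq_mul]
    refine Nat.mul_le_mul_right _ ?_
    exact (Multiset.toFinset_card_le _).trans ((card_roots' _).trans (P_deg m).2.1)
  have h3 : (univ.filter (fun X : SL2 p => tr (A * X) = 0)).card ≤ 2 * p ^ 2 := by
    refine le_trans ?_ (card_trace (p := p) 0)
    refine card_le_card_of_injOn (fun X => A * X) ?_ ?_
    · intro Y hY
      exact mem_coe.2 (mem_filter.2 ⟨mem_univ _, (mem_filter.1 (mem_coe.1 hY)).2⟩)
    · intro Y _ Z _ h
      exact mul_left_cancel h
  calc _ ≤ _ := card_le_card h1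
    _ ≤ _ := card_union_le _ _
    _ ≤ m * (2 * p ^ 2) + 2 * p ^ 2 := Nat.add_le_add h2 h3
    _ = _ := by ring

theorem center_scalar (Z : SL2 p) (hZ : Z ∈ Subgroup.center (SL2 p)) :
    ∃ r : ZMod p, Z.1 = r • (1 : Matrix (Fin 2) (Fin 2) (ZMod p)) := by
  obtain ⟨r, _, hr⟩ := Matrix.SpecialLinearGroup.mem_center_iff.1 hZ
  refine ⟨r, ?_⟩
  rw [← hr, Matrix.scalar_apply, Matrix.smul_one_eq_diagonal]

theorem tr_mul_center (X Z : SL2 p) (hZ : Z ∈ Subgroup.center (SL2 p)) (hX : tr X = 0) :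
    tr (X * Z) = 0 := by
  obtain ⟨r, hr⟩ := center_scalar Z hZ
  rw [tr_eq, val_mul, hr, Matrix.mul_smul, mul_one, Matrix.trace_smul,
    ← tr_eq, hX, smul_zero]

theorem sq_center (X : SL2 p) (hX : tr X = 0) : X * X ∈ Subgroup.center (SL2 p) := by
  have h : (X * X).1 = -1 := by
    rw [val_mul, sq_eq, hX, zero_smul, zero_sub]
  rw [Subgroup.mem_center_iff]
  intro Y
  apply Subtype.ext
  rw [val_mul Y, val_mul (X * X), h]
  simp

end Pool.Agent.AlmRam
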